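import Mathlib
import Pool.Agent.Common_Brouwer.Brouwer

/-!
# Existence of a homotopically stable point in a finite dimensional compact metric space
-/

namespace Pool.Agent.Helper54_Busemann

open Set Metric Pool.Agent.Common_Brouwer

/-- `x` is essential at scale `η`: a homotopy of the identity that never moves a point at distance
at least `η` from `x` onto `x` ends with a map whose image contains `x`. -/
def Ess {Y : Type*} [MetricSpace Y] (x : Y) (η : ℝ) : Prop :=
  ∀ H : Y → ℝ → Y, Continuous (fun p : Y × ℝ => H p.1 p.2) → (∀ y, H y 0 = y) →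
    (∀ y s, s ∈ Icc (0 : ℝ) 1 → η ≤ dist x y → H y s ≠ x) → ∃ y, H y 1 = x

section

variable {Y : Type*} [MetricSpace Y] [CompactSpace Y]

/-- Uniform version of non-essentiality. -/
lemma uniform_push (hness : ∀ (x : Y) (η : ℝ), 0 < η → ¬ Ess x η) (η : ℝ) (hη : 0 < η) :
    ∃ ρ : ℝ, 0 < ρ ∧ ∀ x : Y, ∃ H : Y → ℝ → Y, Continuous (fun p : Y × ℝ => H p.1 p.2) ∧
      (∀ y, H y 0 = y) ∧ (∀ y, ρ ≤ dist x (H y 1)) ∧
      (∀ y s, s ∈ Icc (0 : ℝ) 1 → η ≤ dist x y → ρ ≤ dist x (H y s)) := by
  have key : ∃ ρ : ℝ, 0 < ρ ∧ ∀ x ∈ (univ : Set Y), ∃ H : Y → ℝ → Y,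
      Continuous (fun p : Y × ℝ => H p.1 p.2) ∧
      (∀ y, H y 0 = y) ∧ (∀ y, ρ ≤ dist x (H y 1)) ∧
      (∀ y s, s ∈ Icc (0 : ℝ) 1 → η ≤ dist x y → ρ ≤ dist x (H y s)) := by
    refine isCompact_univ.induction_on (p := fun S : Set Y => ∃ ρ : ℝ, 0 < ρ ∧ ∀ x ∈ S,
      ∃ H : Y → ℝ → Y, Continuous (fun p : Y × ℝ => H p.1 p.2) ∧
      (∀ y, H y 0 = y) ∧ (∀ y, ρ ≤ dist x (H y 1)) ∧
      (∀ y s, s ∈ Icc (0 : ℝ) 1 → η ≤ dist x y → ρ ≤ dist x (H y s))) ?_ ?_ ?_ ?_
    · exact ⟨1, one_pos, fun x hx => absurd hx (notMem_empty x)⟩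
    · rintro s t hst ⟨ρ, hρ, h⟩
      exact ⟨ρ, hρ, fun x hx => h x (hst hx)⟩
    · rintro s t ⟨ρ, hρ, h⟩ ⟨ρ', hρ', h'⟩
      refine ⟨min ρ ρ', lt_min hρ hρ', ?_⟩
      rintro x (hx | hx)
      · obtain ⟨H, h1, h2, h3, h4⟩ := h x hx
        exact ⟨H, h1, h2, fun y => (min_le_left _ _).trans (h3 y),
          fun y s hs hy => (min_le_left _ _).trans (h4 y s hs hy)⟩
      · obtain ⟨H, h1, h2, h3, h4⟩ := h' x hx
        exact ⟨H, h1, h2, fun y => (min_le_right _ _).trans (h3 y),
          fun y s hs hy => (min_le_right _ _).trans (h4 y s hs hy)⟩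
    · intro x₀ _
      have hx := hness x₀ (η / 2) (half_pos hη)
      unfold Ess at hx
      push Not at hx
      obtain ⟨H, hHc, hH0, hHs, hH1⟩ := hx
      obtain ⟨a, ha, hA⟩ := (isCompact_univ (X := Y)).exists_forall_le'
        (f := fun y => dist x₀ (H y 1)) (a := 0)
        (by
          apply Continuous.continuousOn
          exact continuous_const.dist
            (hHc.comp (continuous_id.prodMk continuous_const)))
        (fun y _ => dist_pos.2 (hH1 y).symm)
      have hcomp : IsCompact ({y : Y | η / 2 ≤ dist x₀ y} ×ˢ Icc (0 : ℝ) 1) := by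
        refine IsCompact.prod ?_ isCompact_Icc
        exact (isClosed_le continuous_const (continuous_const.dist continuous_id)).isCompact
      obtain ⟨b, hb, hB⟩ := hcomp.exists_forall_le' (f := fun p => dist x₀ (H p.1 p.2)) (a := 0)
        (Continuous.continuousOn (continuous_const.dist hHc))
        (fun p hp => dist_pos.2 (hHs p.1 p.2 hp.2 hp.1).symm)
      set c := min (min a b / 2) (η / 2) with hc
      have hab : 0 < min a b := lt_min ha hb
      have hcpos : 0 < c := lt_min (half_pos hab) (half_pos hη)
      refine ⟨ball x₀ c, mem_nhdsWithin_of_mem_nhds (ball_mem_nhds _ hcpos), min a b / 2,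
        half_pos hab, ?_⟩
      intro x hx
      rw [mem_ball] at hx
      have hc1 : c ≤ min a b / 2 := min_le_left _ _
      have hc2 : c ≤ η / 2 := min_le_right _ _
      refine ⟨H, hHc, hH0, fun y => ?_, fun y s hs hy => ?_⟩
      · have h1 : a ≤ dist x₀ (H y 1) := hA y (mem_univ _)
        have h2 := dist_triangle x₀ x (H y 1)
        have h3 := min_le_left a b
        rw [dist_comm x₀ x] at h2
        linarith
      · have h4 : η / 2 ≤ dist x₀ y := by
          have := dist_triangle x x₀ y
          linarith
        have h1 : b ≤ dist x₀ (H y s) := hB (y, s) ⟨h4, hs⟩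
        have h2 := dist_triangle x₀ x (H y s)
        have h3 := min_le_right a b
        rw [dist_comm x₀ x] at h2
        linarith
  obtain ⟨ρ, hρ, h⟩ := key
  exact ⟨ρ, hρ, fun x => h x (mem_univ x)⟩

/-- The support of a vector. -/
noncomputable def supp {ι : Type*} [Fintype ι] (x : ι → ℝ) : Finset ι := by
  classical exact Finset.univ.filter fun i => x i ≠ 0

lemma mem_supp {ι : Type*} [Fintype ι] {x : ι → ℝ} {i : ι} : i ∈ supp x ↔ x i ≠ 0 := by
  classical
  simp [supp]

/-- Existence of an essential point. -/
theorem exists_ess [Nonempty Y] (N : ℕ)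
    (hdim : ∀ δ : ℝ, 0 < δ → ∃ (n : ℕ) (p : Fin n → Y), (∀ z, ∃ i, dist z (p i) < δ) ∧
      ∀ σ : Finset (Fin n), (∃ z, ∀ i ∈ σ, dist z (p i) < δ) → σ.card ≤ N) :
    ∃ (x : Y) (η : ℝ), 0 < η ∧ Ess x η := by
  classical
  by_contra hcon
  push Not at hcon
  have hness : ∀ (x : Y) (η : ℝ), 0 < η → ¬ Ess x η := hcon
  choose! ρ hρ0 hρ using uniform_push hness
  -- the scales
  let r : ℕ → ℝ := fun k => Nat.rec 2 (fun _ a => min (a / 2) (ρ (a / 2) / 2)) k
  have hr0 : r 0 = 2 := rfl
  have hrs : ∀ k, r (k + 1) = min (r k / 2) (ρ (r k / 2) / 2) := fun k => rfl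
  have hrpos : ∀ k, 0 < r k := by
    intro k
    induction k with
    | zero => rw [hr0]; norm_num
    | succ k ih =>
      rw [hrs]
      exact lt_min (half_pos ih) (half_pos (hρ0 _ (half_pos ih)))
  have hranti : Antitone r := by
    refine antitone_nat_of_succ_le fun k => ?_
    rw [hrs]
    have := hrpos k
    exact (min_le_left _ _).trans (by linarith)
  obtain ⟨n, p, hcov, hord⟩ := hdim (r N / 2) (half_pos (hrpos N))
  set δ := r N / 2 with hδ
  have hδpos : 0 < δ := half_pos (hrpos N)
  -- nonempty index set
  have hn : Nonempty (Fin n) := by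
    obtain ⟨z⟩ := ‹Nonempty Y›
    exact ⟨(hcov z).choose⟩
  -- construction over the faces
  have main : ∀ k : ℕ, ∃ Ψ : (Fin n → ℝ) → Y, Continuous Ψ ∧
      ∀ x ∈ stdSimplex ℝ (Fin n), (supp x).card ≤ k →
        ∀ a, (∀ i ∈ supp x, dist a (p i) < δ) → r (supp x).card ≤ dist (Ψ x) a := by
    intro k
    induction k with
    | zero =>
      obtain ⟨z⟩ := ‹Nonempty Y›
      refine ⟨fun _ => z, continuous_const, fun x hx h0 => ?_⟩
      exfalso
      have h1 : supp x = ∅ := Finset.card_eq_zero.1 (Nat.le_zero.1 h0)
      have h2 : ∑ i, x i = 0 := by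
        refine Finset.sum_eq_zero fun i _ => ?_
        by_contra hi
        have : i ∈ supp x := mem_supp.2 hi
        rw [h1] at this
        exact absurd this (Finset.notMem_empty i)
      rw [hx.2] at h2
      exact one_ne_zero h2
    | succ k ih =>
      obtain ⟨Ψ₀, hΨ₀c, hΨ₀⟩ := ih
      -- inner induction
      have inner : ∀ S : Finset (Finset (Fin n)), ∃ Ψ : (Fin n → ℝ) → Y, Continuous Ψ ∧
          ∀ x ∈ stdSimplex ℝ (Fin n), ((supp x).card ≤ k ∨
            (supp x ∈ S ∧ (supp x).card = k + 1)) →
            ∀ a, (∀ i ∈ supp x, dist a (p i) < δ) → r (supp x).card ≤ dist (Ψ x) a := by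
        intro S
        induction S using Finset.induction_on with
        | empty =>
          refine ⟨Ψ₀, hΨ₀c, fun x hx hh => ?_⟩
          rcases hh with hh | hh
          · exact hΨ₀ x hx hh
          · exact absurd hh.1 (Finset.notMem_empty _)
        | insert σ S hσS ih =>
          obtain ⟨Ψ, hΨc, hΨ⟩ := ih
          by_cases hcard : σ.card = k + 1
          swap
          · refine ⟨Ψ, hΨc, fun x hx hh => hΨ x hx ?_⟩
            rcases hh with hh | ⟨h1, h2⟩
            · exact Or.inl hh
            · rcases Finset.mem_insert.1 h1 with h3 | h3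
              · rw [h3] at h2; exact absurd h2 hcard
              · exact Or.inr ⟨h3, h2⟩
          by_cases hσ : ∃ z, ∀ i ∈ σ, dist z (p i) < δ
          swap
          · refine ⟨Ψ, hΨc, fun x hx hh => ?_⟩
            rcases hh with hh | ⟨h1, h2⟩
            · exact hΨ x hx (Or.inl hh)
            · rcases Finset.mem_insert.1 h1 with h3 | h3
              · intro a ha
                rw [h3] at ha
                exact absurd ⟨a, ha⟩ hσ
              · exact hΨ x hx (Or.inr ⟨h3, h2⟩)
          obtain ⟨z, hz⟩ := hσ
          have hkN : k + 1 ≤ N := by rw [← hcard]; exact hord σ ⟨z, hz⟩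
          obtain ⟨H, hHc, hH0, hH1, hHs⟩ := hρ (r k / 2) (half_pos (hrpos k)) z
          -- the compact set where we are close to `z`
          have hKc : IsCompact ({x : Fin n → ℝ | x ∈ stdSimplex ℝ (Fin n) ∧
              (∀ i, i ∉ σ → x i = 0) ∧ dist (Ψ x) z ≤ r k / 2}) := by
            refine (isCompact_stdSimplex ℝ (Fin n)).of_isClosed_subset ?_ (fun x hx => hx.1)
            refine (isClosed_stdSimplex ℝ (Fin n)).inter (IsClosed.inter ?_ ?_)
            · have : {x : Fin n → ℝ | ∀ i, i ∉ σ → x i = 0} =
                  ⋂ i, ⋂ (_ : i ∉ σ), {x : Fin n → ℝ | x i = 0} := by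
                ext x; simp
              rw [show (fun x : Fin n → ℝ => ∀ i, i ∉ σ → x i = 0) =
                {x : Fin n → ℝ | ∀ i, i ∉ σ → x i = 0} from rfl, this]
              exact isClosed_iInter fun i => isClosed_iInter fun _ =>
                isClosed_eq (continuous_apply i) continuous_const
            · exact isClosed_le (hΨc.dist continuous_const) continuous_const
          have hprodpos : ∀ x ∈ {x : Fin n → ℝ | x ∈ stdSimplex ℝ (Fin n) ∧
              (∀ i, i ∉ σ → x i = 0) ∧ dist (Ψ x) z ≤ r k / 2}, 0 < ∏ i ∈ σ, x i := by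
            rintro x ⟨hx, hxσ, hxd⟩
            have hsub : supp x ⊆ σ := fun i hi => by
              by_contra hcon
              exact mem_supp.1 hi (hxσ i hcon)
            by_contra hcon
            have hall : ¬ ∀ i ∈ σ, 0 < x i := fun h => hcon (Finset.prod_pos h)
            push Not at hall
            obtain ⟨i, hi, hxi⟩ := hall
            have hxi0 : x i = 0 := le_antisymm hxi (hx.1 i)
            have hss : supp x ⊂ σ := by
              refine ⟨hsub, fun h => ?_⟩
              exact mem_supp.1 (h hi) hxi0
            have hlt := Finset.card_lt_card hss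
            have hle : (supp x).card ≤ k := by omega
            have h5 := hΨ x hx (Or.inl hle) z (fun i hi => hz i (hsub hi))
            have h6 := hranti hle
            have := hrpos k
            linarith
          obtain ⟨ε, hε, hεle⟩ := hKc.exists_forall_le' (f := fun x => ∏ i ∈ σ, x i) (a := 0)
            (Continuous.continuousOn (continuous_finsetProd _ fun i _ => continuous_apply i))
            hprodpos
          refine ⟨fun x => H (Ψ x) (min 1 ((∏ i ∈ σ, x i) / ε)), ?_, ?_⟩
          · refine hHc.comp (hΨc.prodMk ?_)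
            exact continuous_const.min
              ((continuous_finsetProd _ fun i _ => continuous_apply i).div_const _)
          · intro x hx hh a ha
            have hprod0 : 0 ≤ ∏ i ∈ σ, x i := Finset.prod_nonneg fun i _ => hx.1 i
            have hunch : ¬ σ ⊆ supp x → H (Ψ x) (min 1 ((∏ i ∈ σ, x i) / ε)) = Ψ x := by
              intro hns
              obtain ⟨i, hi, hi'⟩ := Finset.not_subset.1 hns
              have hxi : x i = 0 := by
                by_contra h; exact hi' (mem_supp.2 h)
              rw [Finset.prod_eq_zero hi hxi, zero_div, min_eq_right zero_le_one, hH0]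
            by_cases hsx : supp x = σ
            · -- the new face
              have hza : dist z a ≤ 2 * δ := by
                have hne : σ.Nonempty := by
                  rw [← Finset.card_pos, hcard]; omega
                obtain ⟨i, hi⟩ := hne
                have h1 := hz i hi
                have h2 := ha i (by rw [hsx]; exact hi)
                have h3 := dist_triangle_right z a (p i)
                linarith
              have hNk : r N ≤ r (k + 1) := hranti hkN
              have h7 : r (k + 1) ≤ ρ (r k / 2) / 2 := by rw [hrs]; exact min_le_right _ _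
              have hmain : ρ (r k / 2) ≤ dist z (H (Ψ x) (min 1 ((∏ i ∈ σ, x i) / ε))) := by
                by_cases hd : dist (Ψ x) z ≤ r k / 2
                · have hxK : ε ≤ ∏ i ∈ σ, x i := hεle x ⟨hx, fun i hi => by
                    by_contra h
                    exact hi (by rw [← hsx]; exact mem_supp.2 h), hd⟩
                  have h8 : min 1 ((∏ i ∈ σ, x i) / ε) = 1 :=
                    min_eq_left ((one_le_div hε).2 hxK)
                  rw [h8]
                  exact hH1 _
                · push Not at hd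
                  refine hHs _ _ ⟨le_min zero_le_one (div_nonneg hprod0 hε.le),
                    min_le_left _ _⟩ ?_
                  rw [dist_comm]
                  exact hd.le
              have h9 := dist_triangle_right z (H (Ψ x) (min 1 ((∏ i ∈ σ, x i) / ε))) a
              rw [hsx, hcard]
              have h10 : 2 * δ = r N := by rw [hδ]; ring
              linarith
            · have hold : (supp x).card ≤ k ∨ (supp x ∈ S ∧ (supp x).card = k + 1) := by
                rcases hh with hh | ⟨h1, h2⟩
                · exact Or.inl hh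
                · exact Or.inr ⟨(Finset.mem_insert.1 h1).resolve_left hsx, h2⟩
              have hns : ¬ σ ⊆ supp x := by
                intro hsub
                have hle := Finset.card_le_card hsub
                have : (supp x).card ≤ k + 1 := by
                  rcases hold with h | h <;> omega
                exact hsx (Finset.eq_of_subset_of_card_le hsub (by omega)).symm
              have := hΨ x hx hold a ha
              simp only [hunch hns]
              exact this
      obtain ⟨Ψ, hΨc, hΨ⟩ := inner Finset.univ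
      refine ⟨Ψ, hΨc, fun x hx hle => hΨ x hx ?_⟩
      rcases Nat.lt_or_ge (supp x).card (k + 1) with h | h
      · exact Or.inl (by omega)
      · exact Or.inr ⟨Finset.mem_univ _, le_antisymm hle h⟩
  obtain ⟨Ψ, hΨc, hΨ⟩ := main n
  -- Brouwer
  set κ : Y → Fin n → ℝ := fun z i => max 0 (δ - dist z (p i)) with hκ
  have hκc : Continuous κ := by
    refine continuous_pi fun i => ?_
    exact continuous_const.max (continuous_const.sub (continuous_id.dist continuous_const))
  have hκ0 : ∀ z i, 0 ≤ κ z i := fun z i => le_max_left _ _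
  have hS : ∀ z, 0 < ∑ i, κ z i := by
    intro z
    obtain ⟨i, hi⟩ := hcov z
    refine Finset.sum_pos' (fun q _ => hκ0 z q) ⟨i, Finset.mem_univ _, ?_⟩
    exact lt_max_of_lt_right (sub_pos.2 hi)
  obtain ⟨x, hx, hfx⟩ := brouwer_stdSimplex
    (fun (x : Fin n → ℝ) i => κ (Ψ x) i / ∑ j, κ (Ψ x) j) (by
      apply Continuous.continuousOn
      have h2 : Continuous (fun x => κ (Ψ x)) := hκc.comp hΨc
      refine continuous_pi fun i => ?_
      refine Continuous.div ((continuous_apply i).comp h2) ?_ ?_
      · exact continuous_finsetSum _ fun q _ => (continuous_apply q).comp h2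
      · intro x
        exact (hS _).ne')
    (by
      intro x _
      have hpos := hS (Ψ x)
      refine ⟨fun i => div_nonneg (hκ0 _ _) hpos.le, ?_⟩
      rw [← Finset.sum_div, div_self hpos.ne'])
  have hcard : (supp x).card ≤ n := by
    simpa using Finset.card_le_univ (supp x)
  have hclose : ∀ i ∈ supp x, dist (Ψ x) (p i) < δ := by
    intro i hi
    have h1 : x i ≠ 0 := mem_supp.1 hi
    have h2 : x i = κ (Ψ x) i / ∑ j, κ (Ψ x) j := (congrFun hfx i).symm
    by_contra hcon
    push Not at hcon
    apply h1
    rw [h2]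
    have : κ (Ψ x) i = 0 := by
      simp only [hκ]
      exact max_eq_left (by linarith)
    rw [this, zero_div]
  have h3 := hΨ x hx hcard (Ψ x) hclose
  rw [dist_self] at h3
  exact absurd (hrpos (supp x).card) (not_lt.2 h3)

end

end Pool.Agent.Helper54_Busemann
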