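import Mathlib
import Pool.Agent.Helper54_Busemann.Stable

/-!
# Spaces with unique convex geodesics
-/

namespace Pool.Agent.Helper54_Busemann

open Set Metric MeasureTheory

/-- `φ p y t` is the point at parameter `t` on the unique geodesic from `p` to `y`, and the
distance is convex along pairs of geodesics. The parameter is clamped to `[0,1]`. -/
structure Bic {Y : Type*} [MetricSpace Y] (φ : Y → Y → ℝ → Y) : Prop where
  dist_left : ∀ p y t, t ∈ Icc (0 : ℝ) 1 → dist p (φ p y t) = t * dist p y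
  dist_right : ∀ p y t, t ∈ Icc (0 : ℝ) 1 → dist (φ p y t) y = (1 - t) * dist p y
  uniq : ∀ p y z t, t ∈ Icc (0 : ℝ) 1 → dist p z = t * dist p y →
    dist z y = (1 - t) * dist p y → z = φ p y t
  conv : ∀ p y p' y' t, t ∈ Icc (0 : ℝ) 1 →
    dist (φ p y t) (φ p' y' t) ≤ (1 - t) * dist p p' + t * dist y y'
  clamp : ∀ p y t, φ p y t = φ p y (max 0 (min 1 t))

namespace Bic

variable {Y : Type*} [MetricSpace Y] {φ : Y → Y → ℝ → Y}

lemma zero (h : Bic φ) (p y : Y) : φ p y 0 = p := by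
  have := h.dist_left p y 0 ⟨le_rfl, zero_le_one⟩
  rw [zero_mul] at this
  exact (dist_eq_zero.1 this).symm

lemma one (h : Bic φ) (p y : Y) : φ p y 1 = y := by
  have := h.dist_right p y 1 ⟨zero_le_one, le_rfl⟩
  rw [sub_self, zero_mul] at this
  exact dist_eq_zero.1 this

lemma self (h : Bic φ) (p : Y) {t : ℝ} (ht : t ∈ Icc (0 : ℝ) 1) : φ p p t = p := by
  have := h.dist_left p p t ht
  rw [dist_self, mul_zero] at this
  exact (dist_eq_zero.1 this).symm

lemma symm (h : Bic φ) (p y : Y) {t : ℝ} (ht : t ∈ Icc (0 : ℝ) 1) : φ p y t = φ y p (1 - t) := by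
  have ht' : 1 - t ∈ Icc (0 : ℝ) 1 := ⟨by linarith [ht.2], by linarith [ht.1]⟩
  refine (h.uniq p y _ t ht ?_ ?_).symm
  · rw [dist_comm, h.dist_right y p _ ht', dist_comm y p]; ring
  · rw [dist_comm, h.dist_left y p _ ht', dist_comm y p]

lemma comp (h : Bic φ) (p y : Y) {s t : ℝ} (hs : s ∈ Icc (0 : ℝ) 1) (ht : t ∈ Icc (0 : ℝ) 1) :
    φ p (φ p y s) t = φ p y (s * t) := by
  have hst : s * t ∈ Icc (0 : ℝ) 1 :=
    ⟨mul_nonneg hs.1 ht.1, mul_le_one₀ hs.2 ht.1 ht.2⟩
  have h1 : dist p (φ p (φ p y s) t) = s * t * dist p y := by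
    rw [h.dist_left _ _ _ ht, h.dist_left _ _ _ hs]; ring
  refine h.uniq p y _ _ hst h1 ?_
  refine le_antisymm ?_ ?_
  · calc dist (φ p (φ p y s) t) y ≤ dist (φ p (φ p y s) t) (φ p y s) + dist (φ p y s) y :=
        dist_triangle _ _ _
      _ = (1 - s * t) * dist p y := by
        rw [h.dist_right _ _ _ ht, h.dist_left _ _ _ hs, h.dist_right _ _ _ hs]; ring
  · have := dist_triangle p (φ p (φ p y s) t) y
    rw [h1] at this
    linarith

lemma dist_same_le (h : Bic φ) (p y : Y) {s t : ℝ} (hs : s ∈ Icc (0 : ℝ) 1)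
    (ht : t ∈ Icc (0 : ℝ) 1) (hst : s ≤ t) : dist (φ p y s) (φ p y t) = (t - s) * dist p y := by
  rcases eq_or_lt_of_le ht.1 with h0 | h0
  · have hs0 : s = 0 := le_antisymm (h0 ▸ hst) hs.1
    rw [hs0, ← h0, dist_self]; ring
  · have hq : s / t ∈ Icc (0 : ℝ) 1 := ⟨div_nonneg hs.1 h0.le, (div_le_one h0).2 hst⟩
    have : φ p y s = φ p (φ p y t) (s / t) := by
      rw [h.comp p y ht hq, mul_div_cancel₀ _ h0.ne']
    rw [this, h.dist_right _ _ _ hq, h.dist_left _ _ _ ht]
    field_simp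

lemma dist_same (h : Bic φ) (p y : Y) {s t : ℝ} (hs : s ∈ Icc (0 : ℝ) 1)
    (ht : t ∈ Icc (0 : ℝ) 1) : dist (φ p y s) (φ p y t) = |s - t| * dist p y := by
  rcases le_total s t with hst | hst
  · rw [h.dist_same_le p y hs ht hst, abs_of_nonpos (by linarith)]; ring
  · rw [dist_comm, h.dist_same_le p y ht hs hst, abs_of_nonneg (by linarith)]

/-- contraction towards a fixed centre -/
lemma contr (h : Bic φ) (p y z : Y) {t : ℝ} (ht : t ∈ Icc (0 : ℝ) 1) :
    dist (φ p y t) (φ p z t) ≤ t * dist y z := by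
  have := h.conv p y p z t ht
  rwa [dist_self, mul_zero, zero_add] at this

lemma conv_pt (h : Bic φ) (q p y : Y) {t : ℝ} (ht : t ∈ Icc (0 : ℝ) 1) :
    dist q (φ p y t) ≤ (1 - t) * dist q p + t * dist q y := by
  have := h.conv q q p y t ht
  rwa [h.self q ht] at this

lemma btw (h : Bic φ) {p y z : Y} (hz : dist p z + dist z y = dist p y) (hpy : p ≠ y) :
    z = φ p y (dist p z / dist p y) := by
  have hpos : 0 < dist p y := dist_pos.2 hpy
  have hle : dist p z ≤ dist p y := by linarith [dist_nonneg (x := z) (y := y)]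
  refine h.uniq p y z _ ⟨div_nonneg dist_nonneg hpos.le, (div_le_one hpos).2 hle⟩ ?_ ?_
  · field_simp
  · field_simp
    linarith

lemma continuous (h : Bic φ) : Continuous fun q : Y × Y × ℝ => φ q.1 q.2.1 q.2.2 := by
  rw [continuous_iff_continuousAt]
  rintro ⟨p, y, t⟩
  rw [ContinuousAt, tendsto_iff_dist_tendsto_zero]
  have hcl : ∀ u : ℝ, max 0 (min 1 u) ∈ Icc (0 : ℝ) 1 := fun u =>
    ⟨le_max_left _ _, max_le zero_le_one (min_le_left _ _)⟩
  have hb : ∀ q : Y × Y × ℝ, dist (φ q.1 q.2.1 q.2.2) (φ p y t) ≤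
      dist q.1 p + dist q.2.1 y + |max 0 (min 1 q.2.2) - max 0 (min 1 t)| * dist p y := by
    intro q
    rw [h.clamp q.1 q.2.1 q.2.2, h.clamp p y t]
    set u := max 0 (min 1 q.2.2) with hu
    set v := max 0 (min 1 t) with hv
    have hu' : u ∈ Icc (0 : ℝ) 1 := hcl _
    have hv' : v ∈ Icc (0 : ℝ) 1 := hcl _
    have h1 := h.conv q.1 q.2.1 p y u hu'
    have h2 := h.dist_same p y hu' hv'
    have h3 := dist_triangle (φ q.1 q.2.1 u) (φ p y u) (φ p y v)
    have h4 : (1 - u) * dist q.1 p ≤ dist q.1 p := by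
      have := dist_nonneg (x := q.1) (y := p)
      nlinarith [hu'.1]
    have h5 : u * dist q.2.1 y ≤ dist q.2.1 y := by
      have := dist_nonneg (x := q.2.1) (y := y)
      nlinarith [hu'.2]
    linarith
  have hlim : Filter.Tendsto (fun q : Y × Y × ℝ => dist q.1 p + dist q.2.1 y +
      |max 0 (min 1 q.2.2) - max 0 (min 1 t)| * dist p y) (nhds (p, y, t)) (nhds 0) := by
    have hc : Continuous (fun q : Y × Y × ℝ => dist q.1 p + dist q.2.1 y +
      |max 0 (min 1 q.2.2) - max 0 (min 1 t)| * dist p y) := by fun_prop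
    have := hc.tendsto (p, y, t)
    simpa using this
  exact squeeze_zero (fun _ => dist_nonneg) hb hlim

lemma continuous' (h : Bic φ) {Z : Type*} [TopologicalSpace Z] {f g : Z → Y} {k : Z → ℝ}
    (hf : Continuous f) (hg : Continuous g) (hk : Continuous k) :
    Continuous fun z => φ (f z) (g z) (k z) :=
  h.continuous.comp (hf.prodMk (hg.prodMk hk))

end Bic

/-- The measure contraction property in the form in which it is used. -/
structure Mcp {Y : Type*} [MetricSpace Y] [MeasurableSpace Y] (φ : Y → Y → ℝ → Y)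
    (μ : Measure Y) (c : ℝ → ℝ) : Prop where
  fin : μ univ < ⊤
  pos : ∀ y r, 0 < r → 0 < μ.real (ball y r)
  contr : ∀ p t, t ∈ Ioc (0 : ℝ) 1 → ∀ A, MeasurableSet A →
    c t * μ.real A ≤ μ.real ((fun y => φ p y t) '' A)
  c_pos : ∀ t, t ∈ Ioc (0 : ℝ) 1 → 0 < c t
  c_lim : ∃ t₀ : ℝ, 0 < t₀ ∧ t₀ < 1 ∧ ∀ t, t ∈ Icc t₀ 1 → 4 / 5 ≤ c t

section

variable {Y : Type*} [MetricSpace Y] [MeasurableSpace Y] [BorelSpace Y] {φ : Y → Y → ℝ → Y}
  {μ : Measure Y} {c : ℝ → ℝ}

omit [BorelSpace Y] in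
lemma Mcp.mono (hm : Mcp φ μ c) {A B : Set Y} (h : A ⊆ B) : μ.real A ≤ μ.real B := by
  refine measureReal_mono h ?_
  exact (lt_of_le_of_lt (measure_mono (subset_univ _)) hm.fin).ne

/-- If the contraction towards `p` by the factor `t` maps `A` into `B` then the measure of `B` is
at least `c t` times the measure of `A`. -/
lemma Mcp.le (hm : Mcp φ μ c) (p : Y) {t : ℝ} (ht : t ∈ Ioc (0 : ℝ) 1) {A B : Set Y}
    (hA : MeasurableSet A) (h : ∀ y ∈ A, φ p y t ∈ B) : c t * μ.real A ≤ μ.real B :=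
  (hm.contr p t ht A hA).trans (hm.mono (by rintro _ ⟨y, hy, rfl⟩; exact h y hy))

/-- Geodesics do not branch. -/
theorem injective_of_mcp (hb : Bic φ) (hm : Mcp φ μ c) (p : Y) {s : ℝ} (hs : s ∈ Ioc (0 : ℝ) 1) :
    Function.Injective fun y => φ p y s := by
  intro a b hab
  by_contra hne
  have hab' : φ p a s = φ p b s := hab
  have hsI : s ∈ Icc (0 : ℝ) 1 := ⟨hs.1.le, hs.2⟩
  -- the branching parameter
  set S : Set ℝ := {u | u ∈ Icc s 1 ∧ φ p a u = φ p b u} with hS
  have hca : Continuous fun u : ℝ => φ p a u :=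
    hb.continuous' continuous_const continuous_const continuous_id
  have hcb : Continuous fun u : ℝ => φ p b u :=
    hb.continuous' continuous_const continuous_const continuous_id
  have hSc : IsCompact S := by
    refine isCompact_Icc.of_isClosed_subset ?_ (fun u hu => hu.1)
    exact isClosed_Icc.inter (isClosed_eq hca hcb)
  have hSn : S.Nonempty := ⟨s, ⟨le_rfl, hs.2⟩, hab'⟩
  have hmem := hSc.sSup_mem hSn
  set v := sSup S with hv
  have hvI : v ∈ Icc (0 : ℝ) 1 := ⟨hs.1.le.trans hmem.1.1, hmem.1.2⟩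
  have hv0 : 0 < v := lt_of_lt_of_le hs.1 hmem.1.1
  have hv1 : v < 1 := by
    refine lt_of_le_of_ne hmem.1.2 fun h => hne ?_
    have := hmem.2
    rwa [h, hb.one, hb.one] at this
  have hafter : ∀ u, v < u → u ≤ 1 → φ p a u ≠ φ p b u := by
    intro u hu hu1 heq
    have : u ∈ S := ⟨⟨hmem.1.1.trans hu.le, hu1⟩, heq⟩
    exact absurd (le_csSup hSc.bddAbove this) (not_le.2 hu)
  obtain ⟨t₀, ht0, ht1, hct⟩ := hm.c_lim
  -- choose u
  obtain ⟨u, hu, hu1, hut, hut'⟩ : ∃ u, v < u ∧ u < 1 ∧ t₀ ≤ v / u ∧ t₀ ≤ (1 - u) / (1 - v) := by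
    have h1 : Filter.Tendsto (fun u : ℝ => v / u) (nhdsWithin v (Ioi v)) (nhds 1) := by
      have : ContinuousAt (fun u : ℝ => v / u) v :=
        continuousAt_const.div continuousAt_id hv0.ne'
      have h2 := this.tendsto.mono_left (nhdsWithin_le_nhds (s := Ioi v))
      rwa [div_self hv0.ne'] at h2
    have h1' : Filter.Tendsto (fun u : ℝ => (1 - u) / (1 - v)) (nhdsWithin v (Ioi v))
        (nhds 1) := by
      have : ContinuousAt (fun u : ℝ => (1 - u) / (1 - v)) v := by fun_prop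
      have h2 := this.tendsto.mono_left (nhdsWithin_le_nhds (s := Ioi v))
      rwa [div_self (by linarith : (1 - v) ≠ 0)] at h2
    have e1 := h1.eventually (lt_mem_nhds ht1)
    have e2 := h1'.eventually (lt_mem_nhds ht1)
    have e3 : ∀ᶠ u in nhdsWithin v (Ioi v), u < 1 :=
      nhdsWithin_le_nhds (gt_mem_nhds hv1)
    have e4 : ∀ᶠ u in nhdsWithin v (Ioi v), v < u := self_mem_nhdsWithin
    obtain ⟨u, h1, h2, h3, h4⟩ := (e1.and (e2.and (e3.and e4))).exists
    exact ⟨u, h4, h3, h1.le, h2.le⟩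
  have hu0 : 0 < u := hv0.trans hu
  have huI : u ∈ Icc (0 : ℝ) 1 := ⟨hu0.le, hu1.le⟩
  set t := v / u with htdef
  set t' := (1 - u) / (1 - v) with ht'def
  have htI : t ∈ Ioc (0 : ℝ) 1 := ⟨div_pos hv0 hu0, (div_le_one hu0).2 hu.le⟩
  have ht'I : t' ∈ Ioc (0 : ℝ) 1 :=
    ⟨div_pos (by linarith) (by linarith), (div_le_one (by linarith)).2 (by linarith)⟩
  have htc : t ∈ Icc (0 : ℝ) 1 := ⟨htI.1.le, htI.2⟩
  have ht'c : t' ∈ Icc (0 : ℝ) 1 := ⟨ht'I.1.le, ht'I.2⟩
  have hd : 0 < dist (φ p a u) (φ p b u) := dist_pos.2 (hafter u hu hu1.le)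
  set ρ := dist (φ p a u) (φ p b u) / 3 with hρ
  have hρ0 : 0 < ρ := by positivity
  set z := φ p a v with hz
  have hz' : z = φ p b v := hmem.2
  have hcontrp : ∀ w : Y, ∀ q : Y, φ p q t = z → w ∈ closedBall q ρ → φ p w t ∈ closedBall z ρ := by
    intro w q hq hw
    rw [mem_closedBall] at hw ⊢
    rw [← hq]
    have h1 := hb.contr p w q htc
    have h2 : t * dist w q ≤ 1 * dist w q := mul_le_mul_of_nonneg_right htI.2 dist_nonneg
    linarith
  have hya : φ p (φ p a u) t = z := by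
    rw [hb.comp p a huI htc, htdef, mul_div_cancel₀ _ hu0.ne']
  have hyb : φ p (φ p b u) t = z := by
    rw [hb.comp p b huI htc, htdef, mul_div_cancel₀ _ hu0.ne', hz']
  have hdisj : Disjoint (closedBall (φ p a u) ρ) (closedBall (φ p b u) ρ) :=
    closedBall_disjoint_closedBall (by rw [hρ] at *; linarith)
  have hfin : ∀ A : Set Y, μ A ≠ ⊤ := fun A =>
    (lt_of_le_of_lt (measure_mono (subset_univ _)) hm.fin).ne
  have m1 : c t * (μ.real (closedBall (φ p a u) ρ) + μ.real (closedBall (φ p b u) ρ)) ≤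
      μ.real (closedBall z ρ) := by
    rw [← measureReal_union hdisj isClosed_closedBall.measurableSet (hfin _) (hfin _)]
    refine hm.le p htI (isClosed_closedBall.measurableSet.union
      isClosed_closedBall.measurableSet) ?_
    rintro w (hw | hw)
    · exact hcontrp w _ hya hw
    · exact hcontrp w _ hyb hw
  have m2 : ∀ e : Y, φ e z t' = φ p e u → c t' * μ.real (closedBall z ρ) ≤
      μ.real (closedBall (φ p e u) ρ) := by
    intro e he
    refine hm.le e ht'I isClosed_closedBall.measurableSet ?_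
    intro w hw
    rw [mem_closedBall] at hw ⊢
    rw [← he]
    have h1 := hb.contr e w z ht'c
    have h2 : t' * dist w z ≤ 1 * dist w z := mul_le_mul_of_nonneg_right ht'I.2 dist_nonneg
    linarith
  have hv1' : 1 - v ∈ Icc (0 : ℝ) 1 := ⟨by linarith, by linarith⟩
  have he : ∀ e : Y, z = φ p e v → φ e z t' = φ p e u := by
    intro e hze
    rw [hze, hb.symm p e hvI, hb.symm p e huI, hb.comp e p hv1' ht'c, ht'def,
      mul_div_cancel₀ _ (by linarith : (1 - v) ≠ 0)]
  have m3 := m2 a (he a hz)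
  have m4 := m2 b (he b hz')
  have hcpos : 0 < μ.real (closedBall z ρ) :=
    lt_of_lt_of_le (hm.pos z ρ hρ0) (hm.mono ball_subset_closedBall)
  have c1 := hct t ⟨hut, htI.2⟩
  have c2 := hct t' ⟨hut', ht'I.2⟩
  have m3' : 4 / 5 * μ.real (closedBall z ρ) ≤ μ.real (closedBall (φ p a u) ρ) :=
    (mul_le_mul_of_nonneg_right c2 hcpos.le).trans m3
  have m4' : 4 / 5 * μ.real (closedBall z ρ) ≤ μ.real (closedBall (φ p b u) ρ) :=
    (mul_le_mul_of_nonneg_right c2 hcpos.le).trans m4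
  have hsum : 8 / 5 * μ.real (closedBall z ρ) ≤
      μ.real (closedBall (φ p a u) ρ) + μ.real (closedBall (φ p b u) ρ) := by linarith
  have m5 : 4 / 5 * (8 / 5 * μ.real (closedBall z ρ)) ≤ μ.real (closedBall z ρ) := by
    refine le_trans ?_ m1
    exact mul_le_mul c1 hsum (by positivity) (by linarith)
  linarith

end

end Pool.Agent.Helper54_Busemann
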