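import Mathlib
import Pool.Agent.Helper54_Busemann.Geo

/-!
# Doubling: compactness and covers of bounded order
-/

namespace Pool.Agent.Helper54_Busemann

open Set Metric MeasureTheory

variable {Y : Type*} [MetricSpace Y] [MeasurableSpace Y] [BorelSpace Y] {φ : Y → Y → ℝ → Y}
  {μ : Measure Y} {c : ℝ → ℝ}

omit [BorelSpace Y] in
lemma Mcp.ne_top (hm : Mcp φ μ c) (A : Set Y) : μ A ≠ ⊤ :=
  (lt_of_le_of_lt (measure_mono (subset_univ _)) hm.fin).ne

/-- Counting points: if the balls of radius `δ / 2` about the points of a `δ`-separated finite set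
have measure at least `a` and lie in a set of measure at most `b`, then there are at most `b / a`
points. -/
lemma card_mul_le (hm : Mcp φ μ c) {δ : ℝ} (P : Finset Y)
    (hsep : ∀ p ∈ P, ∀ q ∈ P, p ≠ q → δ ≤ dist p q) {a : ℝ} {B : Set Y}
    (ha : ∀ p ∈ P, a ≤ μ.real (ball p (δ / 2))) (hB : ∀ p ∈ P, ball p (δ / 2) ⊆ B) :
    P.card * a ≤ μ.real B := by
  have h1 : μ.real (⋃ p ∈ P, ball p (δ / 2)) = ∑ p ∈ P, μ.real (ball p (δ / 2)) := by
    refine measureReal_biUnion_finset ?_ (fun p _ => isOpen_ball.measurableSet)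
      (fun p _ => hm.ne_top _)
    intro p hp q hq hpq
    refine ball_disjoint_ball ?_
    have := hsep p hp q hq hpq
    linarith
  calc (P.card : ℝ) * a = ∑ p ∈ P, a := by rw [Finset.sum_const, nsmul_eq_mul]
    _ ≤ ∑ p ∈ P, μ.real (ball p (δ / 2)) := Finset.sum_le_sum ha
    _ = μ.real (⋃ p ∈ P, ball p (δ / 2)) := h1.symm
    _ ≤ μ.real B := hm.mono (iUnion₂_subset hB)

/-- A `δ`-separated finite set has boundedly many points. -/
lemma separated_bounded (hb : Bic φ) (hm : Mcp φ μ c) {D : ℝ} (hD : ∀ x y : Y, dist x y ≤ D)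
    {δ : ℝ} (hδ : 0 < δ) : ∃ K : ℕ, ∀ P : Finset Y,
      (∀ p ∈ P, ∀ q ∈ P, p ≠ q → δ ≤ dist p q) → P.card ≤ K := by
  rcases isEmpty_or_nonempty Y with hY | hY
  · exact ⟨0, fun P _ => by simp [Finset.eq_empty_of_isEmpty P]⟩
  obtain ⟨y₀⟩ := hY
  have hD0 : 0 ≤ D := dist_nonneg.trans (hD y₀ y₀)
  set t := min 1 (δ / 4 / (D + 1)) with ht
  have htI : t ∈ Ioc (0 : ℝ) 1 := ⟨lt_min one_pos (by positivity), min_le_left _ _⟩
  have htc : t ∈ Icc (0 : ℝ) 1 := ⟨htI.1.le, htI.2⟩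
  have htD : t * D < δ / 2 := by
    have h1 : t * D ≤ δ / 4 / (D + 1) * D := mul_le_mul_of_nonneg_right (min_le_right _ _) hD0
    have h2 : δ / 4 / (D + 1) * D ≤ δ / 4 := by
      rw [div_mul_eq_mul_div, div_le_iff₀ (by positivity)]
      nlinarith
    linarith
  have hU : 0 < μ.real (univ : Set Y) :=
    lt_of_lt_of_le (hm.pos y₀ 1 one_pos) (hm.mono (subset_univ _))
  have hct := hm.c_pos t htI
  refine ⟨⌈1 / c t⌉₊, fun P hP => ?_⟩
  have h1 : P.card * (c t * μ.real (univ : Set Y)) ≤ μ.real (univ : Set Y) := by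
    refine card_mul_le hm P hP (fun p _ => ?_) (fun p _ => subset_univ _)
    refine hm.le p htI MeasurableSet.univ fun y _ => ?_
    rw [mem_ball, dist_comm, hb.dist_left p y t htc]
    exact lt_of_le_of_lt (mul_le_mul_of_nonneg_left (hD p y) htI.1.le) htD
  have h2 : (P.card : ℝ) * c t ≤ 1 := by
    by_contra hcon
    push Not at hcon
    have : 1 * μ.real (univ : Set Y) < P.card * c t * μ.real (univ : Set Y) :=
      mul_lt_mul_of_pos_right hcon hU
    linarith
  have h3 : (P.card : ℝ) ≤ 1 / c t := (le_div_iff₀ hct).2 h2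
  exact_mod_cast h3.trans (Nat.le_ceil _)

/-- Maximal separated sets. -/
lemma exists_maximal_separated (hb : Bic φ) (hm : Mcp φ μ c) {D : ℝ}
    (hD : ∀ x y : Y, dist x y ≤ D) {δ : ℝ} (hδ : 0 < δ) :
    ∃ P : Finset Y, (∀ p ∈ P, ∀ q ∈ P, p ≠ q → δ ≤ dist p q) ∧ ∀ z, ∃ p ∈ P, dist z p < δ := by
  classical
  obtain ⟨K, hK⟩ := separated_bounded hb hm hD hδ
  set Q : ℕ → Prop := fun k => ∃ P : Finset Y, P.card = k ∧
    ∀ p ∈ P, ∀ q ∈ P, p ≠ q → δ ≤ dist p q with hQ
  have hQ0 : Q 0 := ⟨∅, rfl, fun p hp => absurd hp (Finset.notMem_empty p)⟩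
  have hspec : Q (Nat.findGreatest Q K) := Nat.findGreatest_spec (Nat.zero_le K) hQ0
  obtain ⟨P, hPc, hP⟩ := hspec
  refine ⟨P, hP, fun z => ?_⟩
  by_contra hcon
  push Not at hcon
  have hz : z ∉ P := fun h => by
    have := hcon z h
    rw [dist_self] at this
    linarith
  have hins : ∀ p ∈ insert z P, ∀ q ∈ insert z P, p ≠ q → δ ≤ dist p q := by
    intro p hp q hq hpq
    rcases Finset.mem_insert.1 hp with h1 | h1 <;> rcases Finset.mem_insert.1 hq with h2 | h2
    · exact absurd (h1.trans h2.symm) hpq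
    · rw [h1]; exact hcon q h2
    · rw [h2, dist_comm]; exact hcon p h1
    · exact hP p h1 q h2 hpq
  have hcard : (insert z P).card = Nat.findGreatest Q K + 1 := by
    rw [Finset.card_insert_of_notMem hz, hPc]
  have h1 := hK _ hins
  have h2 : Q (Nat.findGreatest Q K + 1) := ⟨insert z P, hcard, hins⟩
  have h3 := Nat.le_findGreatest (P := Q) (n := K) (by rw [hcard] at h1; exact h1) h2
  omega

/-- `Y` is compact. -/
theorem compactSpace_of_mcp [CompleteSpace Y] (hb : Bic φ) (hm : Mcp φ μ c) {D : ℝ}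
    (hD : ∀ x y : Y, dist x y ≤ D) : CompactSpace Y := by
  rw [← isCompact_univ_iff, isCompact_iff_totallyBounded_isComplete]
  refine ⟨?_, isComplete_univ⟩
  rw [Metric.totallyBounded_iff]
  intro ε hε
  obtain ⟨P, -, hP⟩ := exists_maximal_separated hb hm hD hε
  refine ⟨P, P.finite_toSet, fun z _ => ?_⟩
  obtain ⟨p, hp, hz⟩ := hP z
  exact mem_iUnion₂.2 ⟨p, hp, hz⟩

/-- Covers of bounded order by small balls. -/
theorem covers (hb : Bic φ) (hm : Mcp φ μ c) {D : ℝ} (hD : ∀ x y : Y, dist x y ≤ D) :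
    ∃ N : ℕ, ∀ δ : ℝ, 0 < δ → ∃ (n : ℕ) (p : Fin n → Y), (∀ z, ∃ i, dist z (p i) < δ) ∧
      ∀ σ : Finset (Fin n), (∃ z, ∀ i ∈ σ, dist z (p i) < δ) → σ.card ≤ N := by
  classical
  have h5 : (1 / 5 : ℝ) ∈ Ioc (0 : ℝ) 1 := ⟨by norm_num, by norm_num⟩
  have h5c : (1 / 5 : ℝ) ∈ Icc (0 : ℝ) 1 := ⟨by norm_num, by norm_num⟩
  have hc5 := hm.c_pos _ h5
  refine ⟨⌈1 / c (1 / 5)⌉₊, fun δ hδ => ?_⟩
  obtain ⟨P, hsep, hcov⟩ := exists_maximal_separated hb hm hD hδ
  refine ⟨P.card, fun i => (P.equivFin.symm i : Y), ?_, ?_⟩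
  · intro z
    obtain ⟨p, hp, hz⟩ := hcov z
    exact ⟨P.equivFin ⟨p, hp⟩, by simpa using hz⟩
  · rintro σ ⟨z, hz⟩
    set Q : Finset Y := σ.image (fun i => (P.equivFin.symm i : Y)) with hQ
    have hinj : Function.Injective (fun i => (P.equivFin.symm i : Y)) :=
      Subtype.val_injective.comp P.equivFin.symm.injective
    have hQc : Q.card = σ.card := Finset.card_image_of_injective _ hinj
    have hQP : ∀ q ∈ Q, q ∈ P ∧ dist z q < δ := by
      intro q hq
      obtain ⟨i, hi, rfl⟩ := Finset.mem_image.1 hq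
      exact ⟨(P.equivFin.symm i).2, hz i hi⟩
    have hpos : 0 < μ.real (ball z (3 / 2 * δ)) := hm.pos z _ (by positivity)
    have h1 : Q.card * (c (1 / 5) * μ.real (ball z (3 / 2 * δ))) ≤
        μ.real (ball z (3 / 2 * δ)) := by
      refine card_mul_le (δ := δ) hm Q (fun p hp q hq hpq => hsep p (hQP p hp).1 q (hQP q hq).1 hpq)
        (fun p hp => ?_) (fun p hp => ?_)
      · refine hm.le p h5 isOpen_ball.measurableSet fun y hy => ?_
        rw [mem_ball] at hy ⊢
        rw [dist_comm, hb.dist_left p y _ h5c]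
        have h2 := (hQP p hp).2
        have h3 := dist_triangle p z y
        rw [dist_comm p z, dist_comm z y] at h3
        linarith
      · intro y hy
        rw [mem_ball] at hy ⊢
        have h2 := (hQP p hp).2
        have h3 := dist_triangle y p z
        rw [dist_comm p z] at h3
        linarith
    have h2 : (Q.card : ℝ) * c (1 / 5) ≤ 1 := by
      by_contra hcon
      push Not at hcon
      have : 1 * μ.real (ball z (3 / 2 * δ)) < Q.card * c (1 / 5) * μ.real (ball z (3 / 2 * δ)) :=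
        mul_lt_mul_of_pos_right hcon hpos
      linarith
    rw [← hQc]
    have h3 : (Q.card : ℝ) ≤ 1 / c (1 / 5) := (le_div_iff₀ hc5).2 h2
    exact_mod_cast h3.trans (Nat.le_ceil _)

end Pool.Agent.Helper54_Busemann
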