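import Mathlib
import Pool.Agent.Helper54_Busemann.Cover

/-!
# Essential points and extension of geodesics
-/

namespace Pool.Agent.Helper54_Busemann

open Set Metric MeasureTheory

variable {Y : Type*} [MetricSpace Y] {φ : Y → Y → ℝ → Y}

/-- Every geodesic ending at `y` extends beyond `y` by at least `e`. -/
def Ext (y : Y) (e : ℝ) : Prop :=
  ∀ z, z ≠ y → ∃ w, dist z w = dist z y + dist y w ∧ e ≤ dist y w

lemma Ess.mono {x : Y} {η η' : ℝ} (h : Ess x η) (hle : η' ≤ η) : Ess x η' :=
  fun H hc h0 hs => h H hc h0 fun y s hs' hy => hs y s hs' (hle.trans hy)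

lemma ext_of_ess (hb : Bic φ) {x : Y} {η : ℝ} (hη : 0 < η) (h : Ess x η) : Ext x η := by
  intro z hz
  have hL : 0 < dist z x := dist_pos.2 hz
  set L := dist z x with hLdef
  set t := L / (L + η) with ht
  have hLη : 0 < L + η := by linarith
  have ht0 : 0 < t := div_pos hL hLη
  have ht1 : t < 1 := (div_lt_one hLη).2 (by linarith)
  have htc : t ∈ Icc (0 : ℝ) 1 := ⟨ht0.le, ht1.le⟩
  by_cases hall : ∀ y s, s ∈ Icc (0 : ℝ) 1 → η ≤ dist x y → φ z y (1 - (1 - t) * s) ≠ x
  · obtain ⟨y, hy⟩ := h (fun y s => φ z y (1 - (1 - t) * s))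
      (hb.continuous' continuous_const continuous_fst
        (continuous_const.sub (continuous_const.mul continuous_snd)))
      (fun y => by simp only [mul_zero, sub_zero]; exact hb.one z y) hall
    have hy' : φ z y t = x := by simpa using hy
    have h1 := hb.dist_left z y t htc
    have h2 := hb.dist_right z y t htc
    rw [hy'] at h1 h2
    have h3 : dist z y = L + η := by
      have : t * dist z y = L := h1.symm
      rw [ht] at this
      field_simp at this
      exact this
    refine ⟨y, ?_, ?_⟩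
    · linarith
    · rw [h2, h3, ht]
      field_simp
      linarith
  · push Not at hall
    obtain ⟨y, s, hs, hy, hxy⟩ := hall
    have hu : 1 - (1 - t) * s ∈ Icc (0 : ℝ) 1 := by
      constructor
      · nlinarith [hs.1, hs.2]
      · nlinarith [hs.1, hs.2]
    have h1 := hb.dist_left z y _ hu
    have h2 := hb.dist_right z y _ hu
    rw [hxy] at h1 h2
    exact ⟨y, by rw [← hLdef] at h1; linarith, hy⟩

lemma ess_near (hb : Bic φ)
    (hinj : ∀ (p : Y) (s : ℝ), s ∈ Ioc (0 : ℝ) 1 → Function.Injective fun y => φ p y s)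
    {x : Y} {η : ℝ} (hη : 0 < η) (h : Ess x η) {y' : Y} (hy' : dist x y' < η / 2) :
    Ess y' (η / 2) := by
  by_cases hxy : y' = x
  · rw [hxy]; exact h.mono (by linarith)
  obtain ⟨w, hw1, hw2⟩ := ext_of_ess hb hη h y' hxy
  intro H hHc hH0 hHs
  have hpos : 0 < dist y' x := dist_pos.2 hxy
  have hwy : 0 < dist w y' := by
    rw [dist_comm w y', hw1]; linarith
  set t := dist w x / dist w y' with ht
  have hwx : 0 < dist w x := by rw [dist_comm]; linarith
  have ht0 : 0 < t := div_pos hwx hwy
  have hwle : dist w x ≤ dist w y' := by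
    rw [dist_comm w x, dist_comm w y', hw1]; linarith
  have ht1 : t ≤ 1 := (div_le_one hwy).2 hwle
  have htc : t ∈ Icc (0 : ℝ) 1 := ⟨ht0.le, ht1⟩
  have hxt : x = φ w y' t := by
    refine hb.btw ?_ ?_
    · rw [dist_comm w x, dist_comm w y', hw1, dist_comm x y']; ring
    · intro hc
      rw [hc, dist_self] at hwy
      exact lt_irrefl _ hwy
  have h1t : (1 - t) * dist w y' = dist x y' := by
    have := hb.dist_right w y' t htc
    rw [← hxt] at this
    exact this.symm
  set K : Y → ℝ → Y := fun y s =>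
    φ w (H y (max 0 (min 1 (2 * s - 1)))) (1 - (1 - t) * max 0 (min 1 (2 * s))) with hK
  have hKc : Continuous (fun p : Y × ℝ => K p.1 p.2) := by
    refine hb.continuous' continuous_const ?_ ?_
    · have h1 : Continuous fun p : Y × ℝ => max 0 (min 1 (2 * p.2 - 1)) := by fun_prop
      exact hHc.comp (continuous_fst.prodMk h1)
    · fun_prop
  have hK0 : ∀ y, K y 0 = y := by
    intro y
    simp only [hK]
    rw [show (2 : ℝ) * 0 - 1 = -1 by norm_num, show (2 : ℝ) * 0 = 0 by norm_num,
      min_eq_right (by norm_num : (-1 : ℝ) ≤ 1), max_eq_left (by norm_num : (-1 : ℝ) ≤ 0), hH0,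
      min_eq_right (zero_le_one' ℝ), max_eq_left le_rfl, mul_zero, sub_zero, hb.one]
  have hKs : ∀ y s, s ∈ Icc (0 : ℝ) 1 → η ≤ dist x y → K y s ≠ x := by
    intro y s hs hy hxK
    simp only [hK] at hxK
    rcases le_total s (1 / 2) with hs2 | hs2
    · -- first half
      rw [min_eq_right (by linarith : 2 * s - 1 ≤ 1), max_eq_left (by linarith : 2 * s - 1 ≤ 0),
        hH0, min_eq_right (by linarith : 2 * s ≤ 1), max_eq_right (by linarith [hs.1])] at hxK
      set u := 1 - (1 - t) * (2 * s) with hu
      have hut : t ≤ u := by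
        have : (1 - t) * (2 * s) ≤ (1 - t) * 1 :=
          mul_le_mul_of_nonneg_left (by linarith) (by linarith)
        linarith
      have hu1 : u ≤ 1 := by
        have : 0 ≤ (1 - t) * (2 * s) := mul_nonneg (by linarith) (by linarith [hs.1])
        linarith
      have hu0 : 0 < u := lt_of_lt_of_le ht0 hut
      have hq : t / u ∈ Icc (0 : ℝ) 1 := ⟨div_nonneg ht0.le hu0.le, (div_le_one hu0).2 hut⟩
      have hyeq : y = φ w y' (t / u) := by
        apply hinj w u ⟨hu0, hu1⟩
        change φ w y u = φ w (φ w y' (t / u)) u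
        rw [hb.comp w y' hq ⟨hu0.le, hu1⟩, div_mul_cancel₀ _ hu0.ne', hxK]
        exact hxt
      have h3 : dist x y = (t / u - t) * dist w y' := by
        have h4 : t ≤ t / u := by
          rw [le_div_iff₀ hu0]; nlinarith
        have := hb.dist_same_le w y' htc hq h4
        rw [← hxt, ← hyeq] at this
        exact this
      have h5 : (t / u - t) * dist w y' ≤ (1 - t) * dist w y' :=
        mul_le_mul_of_nonneg_right (by linarith [hq.2]) hwy.le
      linarith
    · -- second half
      rw [min_eq_left (by linarith : 1 ≤ 2 * s), max_eq_right (zero_le_one' ℝ), mul_one,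
        sub_sub_cancel] at hxK
      have h6 : H y (max 0 (min 1 (2 * s - 1))) = y' := by
        apply hinj w t ⟨ht0, ht1⟩
        change φ w (H y (max 0 (min 1 (2 * s - 1)))) t = φ w y' t
        rw [hxK]; exact hxt
      have h7 : dist y' y < η / 2 := by
        by_contra hcon
        push Not at hcon
        exact hHs y _ ⟨le_max_left _ _, max_le zero_le_one (min_le_left _ _)⟩ hcon h6
      have := dist_triangle x y' y
      linarith
  obtain ⟨y, hy⟩ := h K hKc hK0 hKs
  refine ⟨y, ?_⟩
  simp only [hK] at hy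
  rw [show (2 : ℝ) * 1 - 1 = 1 by norm_num, show (2 : ℝ) * 1 = 2 by norm_num,
    min_eq_left (by norm_num : (1 : ℝ) ≤ 2), min_self, max_eq_right (zero_le_one' ℝ), mul_one,
    sub_sub_cancel] at hy
  apply hinj w t ⟨ht0, ht1⟩
  change φ w (H y 1) t = φ w y' t
  rw [hy]; exact hxt

/-- There is a nonempty open set all of whose points have the extension property at a common
scale. -/
theorem exists_ext [CompleteSpace Y] [Nonempty Y] [MeasurableSpace Y] [BorelSpace Y]
    {μ : Measure Y} {c : ℝ → ℝ} (hb : Bic φ) (hm : Mcp φ μ c) {D : ℝ}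
    (hD : ∀ x y : Y, dist x y ≤ D) : ∃ (x : Y) (e : ℝ), 0 < e ∧ ∀ y ∈ ball x e, Ext y e := by
  have hcomp : CompactSpace Y := compactSpace_of_mcp hb hm hD
  obtain ⟨N, hN⟩ := covers hb hm hD
  obtain ⟨x, η, hη, hx⟩ := exists_ess N hN
  refine ⟨x, η / 2, half_pos hη, fun y hy => ?_⟩
  rw [mem_ball, dist_comm] at hy
  exact ext_of_ess hb (half_pos hη)
    (ess_near hb (fun p s hs => injective_of_mcp hb hm p hs) hη hx hy)

end Pool.Agent.Helper54_Busemann
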