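import Mathlib
import Pool.Agent.Helper54_Busemann.Extend

/-!
# Infinitesimal homothety property at generic points
-/

namespace Pool.Agent.Helper54_Busemann

open Set Metric MeasureTheory Filter Topology

variable {Y : Type*} [MetricSpace Y] {φ : Y → Y → ℝ → Y}

/-- Points that extend well are values of contractions. -/
lemma exists_dil (hb : Bic φ) {y a : Y} {e l : ℝ} (ha : Ext a e) (hl : l ∈ Ioc (0 : ℝ) 1)
    (hle : (1 / l - 1) * dist y a ≤ e) : ∃ a', φ y a' l = a ∧ dist y a = l * dist y a' := by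
  have hlc : l ∈ Icc (0 : ℝ) 1 := ⟨hl.1.le, hl.2⟩
  have hmain : ∃ a', φ y a' l = a := by
    by_cases hya : y = a
    · exact ⟨y, by rw [hb.self y hlc]; exact hya⟩
    obtain ⟨w, hw1, hw2⟩ := ha y hya
    have hpos : 0 < dist y a := dist_pos.2 hya
    have hyw : 0 < dist y w := by
      rw [hw1]
      have := dist_nonneg (x := a) (y := w)
      linarith
    have hne : y ≠ w := dist_pos.1 hyw
    have haw : a = φ y w (dist y a / dist y w) := hb.btw hw1.symm hne
    set u := dist y a / (l * dist y w) with hu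
    have hu0 : 0 ≤ u := div_nonneg hpos.le (mul_nonneg hl.1.le hyw.le)
    have hu1 : u ≤ 1 := by
      rw [hu, div_le_one (mul_pos hl.1 hyw)]
      have h1 : (1 / l - 1) * dist y a ≤ dist a w := hle.trans hw2
      have h2 : 1 / l * dist y a ≤ dist y w := by rw [hw1]; linarith
      have h3 : l * (1 / l * dist y a) ≤ l * dist y w := mul_le_mul_of_nonneg_left h2 hl.1.le
      have h4 : l * (1 / l * dist y a) = dist y a := by
        have := hl.1.ne'
        field_simp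
      linarith
    refine ⟨φ y w u, ?_⟩
    rw [hb.comp y w ⟨hu0, hu1⟩ hlc]
    have h5 : u * l = dist y a / dist y w := by
      rw [hu]
      have := hl.1.ne'
      field_simp
    rw [h5]
    exact haw.symm
  obtain ⟨a', ha'⟩ := hmain
  refine ⟨a', ha', ?_⟩
  rw [← ha', hb.dist_left y a' l hlc]

/-- Rescaled distances from the centre `x`. -/
noncomputable def resc (φ : Y → Y → ℝ → Y) (x : Y) (n : ℕ) (p : Y × Y) : ℝ :=
  2 ^ n * dist (φ x p.1 ((1 / 2) ^ n)) (φ x p.2 ((1 / 2) ^ n))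

lemma half_pow_mem (n : ℕ) : ((1 / 2 : ℝ) ^ n) ∈ Ioc (0 : ℝ) 1 :=
  ⟨by positivity, pow_le_one₀ (by norm_num) (by norm_num)⟩

lemma half_pow_mem' (n : ℕ) : ((1 / 2 : ℝ) ^ n) ∈ Icc (0 : ℝ) 1 :=
  ⟨by positivity, pow_le_one₀ (by norm_num) (by norm_num)⟩

lemma half_mem : (1 / 2 : ℝ) ∈ Icc (0 : ℝ) 1 := ⟨by norm_num, by norm_num⟩

lemma two_pow_mul_half (n : ℕ) : (2 : ℝ) ^ n * (1 / 2) ^ n = 1 := by
  rw [← mul_pow]; norm_num

lemma resc_nonneg (x : Y) (n : ℕ) (p : Y × Y) : 0 ≤ resc φ x n p :=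
  mul_nonneg (by positivity) dist_nonneg

lemma resc_antitone (hb : Bic φ) (x : Y) (p : Y × Y) : Antitone fun n => resc φ x n p := by
  refine antitone_nat_of_succ_le fun n => ?_
  unfold resc
  have h1 : ∀ a : Y, φ x a ((1 / 2) ^ (n + 1)) = φ x (φ x a ((1 / 2) ^ n)) (1 / 2) := by
    intro a
    rw [hb.comp x a (half_pow_mem' n) half_mem, pow_succ]
  rw [h1, h1]
  have h2 := hb.contr x (φ x p.1 ((1 / 2) ^ n)) (φ x p.2 ((1 / 2) ^ n)) half_mem
  have h3 : (0 : ℝ) < 2 ^ n := by positivity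
  rw [pow_succ]
  nlinarith

lemma resc_lip (hb : Bic φ) (x : Y) (n : ℕ) (p q : Y × Y) :
    resc φ x n p ≤ resc φ x n q + (dist p.1 q.1 + dist p.2 q.2) := by
  unfold resc
  have h1 := hb.contr x p.1 q.1 (half_pow_mem' n)
  have h2 := hb.contr x p.2 q.2 (half_pow_mem' n)
  have h3 := dist_triangle4 (φ x p.1 ((1 / 2) ^ n)) (φ x q.1 ((1 / 2) ^ n))
    (φ x q.2 ((1 / 2) ^ n)) (φ x p.2 ((1 / 2) ^ n))
  rw [dist_comm (φ x q.2 ((1 / 2) ^ n)) (φ x p.2 ((1 / 2) ^ n))] at h3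
  have h4 : (0 : ℝ) < 2 ^ n := by positivity
  have h5 : (2 : ℝ) ^ n * dist (φ x p.1 ((1 / 2) ^ n)) (φ x p.2 ((1 / 2) ^ n)) ≤
      2 ^ n * ((1 / 2) ^ n * dist p.1 q.1 + dist (φ x q.1 ((1 / 2) ^ n)) (φ x q.2 ((1 / 2) ^ n)) +
        (1 / 2) ^ n * dist p.2 q.2) :=
    mul_le_mul_of_nonneg_left (by linarith) h4.le
  have h6 := two_pow_mul_half n
  calc _ ≤ _ := h5
    _ = 2 ^ n * (1 / 2) ^ n * dist p.1 q.1 +
        2 ^ n * dist (φ x q.1 ((1 / 2) ^ n)) (φ x q.2 ((1 / 2) ^ n)) +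
        2 ^ n * (1 / 2) ^ n * dist p.2 q.2 := by ring
    _ = _ := by rw [h6]; ring

/-- The limit of the rescaled distances. -/
noncomputable def rescLim (φ : Y → Y → ℝ → Y) (x : Y) (p : Y × Y) : ℝ := ⨅ n, resc φ x n p

lemma resc_bdd (x : Y) (p : Y × Y) : BddBelow (range fun n => resc φ x n p) :=
  ⟨0, by rintro _ ⟨n, rfl⟩; exact resc_nonneg x n p⟩

lemma tendsto_resc (hb : Bic φ) (x : Y) (p : Y × Y) :
    Tendsto (fun n => resc φ x n p) atTop (𝓝 (rescLim φ x p)) :=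
  tendsto_atTop_ciInf (resc_antitone hb x p) (resc_bdd x p)

lemma rescLim_le (x : Y) (p : Y × Y) (n : ℕ) : rescLim φ x p ≤ resc φ x n p :=
  ciInf_le (resc_bdd x p) n

lemma continuous_of_lip {f : Y × Y → ℝ}
    (h : ∀ p q : Y × Y, f p ≤ f q + (dist p.1 q.1 + dist p.2 q.2)) : Continuous f := by
  rw [continuous_iff_continuousAt]
  intro p
  rw [ContinuousAt, tendsto_iff_dist_tendsto_zero]
  have hb : ∀ q : Y × Y, dist (f q) (f p) ≤ dist q.1 p.1 + dist q.2 p.2 := by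
    intro q
    rw [Real.dist_eq, abs_le]
    have h1 := h p q
    have h2 := h q p
    rw [dist_comm p.1 q.1, dist_comm p.2 q.2] at h1
    constructor <;> linarith
  have hlim : Tendsto (fun q : Y × Y => dist q.1 p.1 + dist q.2 p.2) (𝓝 p) (𝓝 0) := by
    have hc : Continuous (fun q : Y × Y => dist q.1 p.1 + dist q.2 p.2) := by fun_prop
    have := hc.tendsto p
    simpa using this
  exact squeeze_zero (fun _ => dist_nonneg) hb hlim

lemma uniform_resc [CompactSpace Y] (hb : Bic φ) (x : Y) {ε : ℝ} (hε : 0 < ε) :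
    ∃ n₀ : ℕ, ∀ n, n₀ ≤ n → ∀ p, resc φ x n p ≤ rescLim φ x p + ε := by
  have hlimc : Continuous (rescLim φ x) := by
    refine continuous_of_lip fun p q => ?_
    refine le_of_tendsto_of_tendsto' (tendsto_resc hb x p)
      ((tendsto_resc hb x q).add_const _) fun n => ?_
    exact resc_lip hb x n p q
  have hu := Antitone.tendstoUniformly_of_forall_tendsto (F := fun n => resc φ x n)
    (f := rescLim φ x) (fun n => continuous_of_lip (resc_lip hb x n))
    (fun m n hmn p => resc_antitone hb x p hmn) hlimc (fun p => tendsto_resc hb x p)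
  rw [Metric.tendstoUniformly_iff] at hu
  obtain ⟨n₀, hn₀⟩ := eventually_atTop.1 (hu ε hε)
  refine ⟨n₀, fun n hn p => ?_⟩
  have := hn₀ n hn p
  rw [Real.dist_eq, abs_sub_lt_iff] at this
  linarith [this.2]

/-- The set of centres for which the contraction by `1/2` is almost a homothety. -/
def GG (φ : Y → Y → ℝ → Y) (ε τ₀ : ℝ) : Set Y :=
  {x | ∀ τ, 0 < τ → τ ≤ τ₀ → ∀ a b, dist a x < τ → dist b x < τ →
    1 / 2 * dist a b ≤ dist (φ x a (1 / 2)) (φ x b (1 / 2)) + ε * τ}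

lemma isClosed_GG (hb : Bic φ) (ε τ₀ : ℝ) : IsClosed (GG φ ε τ₀) := by
  have : GG φ ε τ₀ = ⋂ (τ : ℝ) (_ : 0 < τ) (_ : τ ≤ τ₀) (a : Y) (b : Y),
      {x | τ ≤ dist a x} ∪ ({x | τ ≤ dist b x} ∪
        {x | 1 / 2 * dist a b ≤ dist (φ x a (1 / 2)) (φ x b (1 / 2)) + ε * τ}) := by
    ext x
    simp only [mem_iInter, mem_union, mem_setOf_eq, GG]
    constructor
    · intro h τ h0 h1 a b
      by_contra hcon
      push Not at hcon
      exact absurd (h τ h0 h1 a b hcon.1 hcon.2.1) (not_le.2 hcon.2.2)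
    · intro h τ h0 h1 a b ha hb
      rcases h τ h0 h1 a b with h2 | h2 | h2
      · exact absurd ha (not_lt.2 h2)
      · exact absurd hb (not_lt.2 h2)
      · exact h2
  rw [this]
  refine isClosed_iInter fun τ => isClosed_iInter fun _ => isClosed_iInter fun _ =>
    isClosed_iInter fun a => isClosed_iInter fun b => ?_
  refine IsClosed.union ?_ (IsClosed.union ?_ ?_)
  · exact isClosed_le continuous_const (continuous_const.dist continuous_id)
  · exact isClosed_le continuous_const (continuous_const.dist continuous_id)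
  · refine isClosed_le continuous_const (Continuous.add ?_ continuous_const)
    exact (hb.continuous' continuous_id continuous_const continuous_const).dist
      (hb.continuous' continuous_id continuous_const continuous_const)

lemma mem_GG [CompactSpace Y] (hb : Bic φ) {x₀ : Y} {e : ℝ} (he : 0 < e)
    (hext : ∀ y ∈ ball x₀ e, Ext y e) {x : Y} (hx : x ∈ ball x₀ (e / 2)) {ε : ℝ} (hε : 0 < ε) :
    ∃ τ₀ : ℝ, 0 < τ₀ ∧ x ∈ GG φ ε τ₀ := by
  set r := e / 2 with hr
  have hr0 : 0 < r := half_pos he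
  obtain ⟨n₀, hn₀⟩ := uniform_resc hb x (ε := ε * r) (by positivity)
  refine ⟨(1 / 2) ^ n₀ * r, by positivity, ?_⟩
  intro τ hτ0 hτ a b ha hb'
  have hτr : τ / r ≤ (1 / 2) ^ n₀ := (div_le_iff₀ hr0).2 hτ
  obtain ⟨n, hn1, hn2⟩ := exists_nat_pow_near_of_lt_one (div_pos hτ0 hr0)
    (hτr.trans (half_pow_mem' n₀).2) (by norm_num : (0 : ℝ) < 1 / 2) (by norm_num)
  have hn : n₀ ≤ n := by
    by_contra hcon
    push Not at hcon
    have h1 : ((1 : ℝ) / 2) ^ n₀ ≤ (1 / 2) ^ (n + 1) :=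
      pow_le_pow_of_le_one (by norm_num) (by norm_num) hcon
    exact absurd (hn1.trans_le hτr) (not_lt.2 h1)
  have hτn : τ ≤ (1 / 2) ^ n * r := (div_le_iff₀ hr0).1 hn2
  have hτn' : (1 / 2) ^ (n + 1) * r < τ := (lt_div_iff₀ hr0).1 hn1
  have hτr' : τ ≤ r := hτn.trans (by
    have := (half_pow_mem' n).2
    nlinarith)
  -- dilation
  have hdil : ∀ a : Y, dist a x < τ → ∃ a', φ x a' ((1 / 2) ^ n) = a := by
    intro a ha
    have haball : a ∈ ball x₀ e := by
      rw [mem_ball] at hx ⊢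
      have := dist_triangle a x x₀
      linarith
    obtain ⟨a', ha', -⟩ := exists_dil hb (y := x) (hext a haball) (half_pow_mem n) (by
      have h1 : 0 ≤ 1 / ((1 : ℝ) / 2) ^ n - 1 := by
        have h2 := half_pow_mem n
        rw [sub_nonneg, one_le_div h2.1]
        exact h2.2
      have h3 : 1 / ((1 : ℝ) / 2) ^ n * dist x a ≤ r := by
        rw [one_div, inv_mul_le_iff₀ (half_pow_mem n).1, dist_comm]
        exact ha.le.trans hτn
      have h4 := dist_nonneg (x := x) (y := a)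
      have h5 : (1 / ((1 : ℝ) / 2) ^ n - 1) * dist x a =
        1 / ((1 : ℝ) / 2) ^ n * dist x a - dist x a := by ring
      rw [h5]
      linarith)
    exact ⟨a', ha'⟩
  obtain ⟨a', ha'⟩ := hdil a ha
  obtain ⟨b', hb''⟩ := hdil b hb'
  have h1 := hn₀ n hn (a', b')
  have h2 := rescLim_le (φ := φ) x (a', b') (n + 1)
  unfold resc at h1 h2
  simp only at h1 h2
  have h3 : ∀ a' : Y, φ x a' ((1 / 2) ^ (n + 1)) = φ x (φ x a' ((1 / 2) ^ n)) (1 / 2) := by
    intro a
    rw [hb.comp x a (half_pow_mem' n) half_mem, pow_succ]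
  rw [h3, h3, ha', hb''] at h2
  rw [ha', hb''] at h1
  -- h1 : 2^n * dist a b ≤ lim + ε r ; h2 : lim ≤ 2^(n+1) * dist (..)
  have h4 : 2 ^ n * dist a b ≤ 2 ^ (n + 1) * dist (φ x a (1 / 2)) (φ x b (1 / 2)) + ε * r := by
    linarith
  have h5 : (1 / 2 : ℝ) ^ (n + 1) * (2 ^ n * dist a b) ≤ (1 / 2) ^ (n + 1) *
      (2 ^ (n + 1) * dist (φ x a (1 / 2)) (φ x b (1 / 2)) + ε * r) :=
    mul_le_mul_of_nonneg_left h4 (by positivity)
  have h6 : (1 / 2 : ℝ) ^ (n + 1) * (2 ^ n * dist a b) = 1 / 2 * dist a b := by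
    have := two_pow_mul_half n
    rw [pow_succ]
    linear_combination (1 / 2 * dist a b) * this
  have h7 : (1 / 2 : ℝ) ^ (n + 1) *
      (2 ^ (n + 1) * dist (φ x a (1 / 2)) (φ x b (1 / 2)) + ε * r) =
      dist (φ x a (1 / 2)) (φ x b (1 / 2)) + ε * ((1 / 2) ^ (n + 1) * r) := by
    have := two_pow_mul_half (n + 1)
    linear_combination (dist (φ x a (1 / 2)) (φ x b (1 / 2))) * this
  rw [h6, h7] at h5
  have h8 : ε * ((1 / 2) ^ (n + 1) * r) ≤ ε * τ := mul_le_mul_of_nonneg_left hτn'.le hε.le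
  linarith

/-- Generic points: at small scales near `y` all contractions by `1/2` are almost homotheties. -/
def Gen (φ : Y → Y → ℝ → Y) (y : Y) : Prop :=
  ∀ ε, 0 < ε → ∃ τ₀, 0 < τ₀ ∧ ball y τ₀ ⊆ GG φ ε τ₀

/-- Generic points are dense in the open set where geodesics extend. -/
theorem exists_gen [CompactSpace Y] (hb : Bic φ) {x₀ : Y} {e : ℝ} (he : 0 < e)
    (hext : ∀ y ∈ ball x₀ e, Ext y e) {V : Set Y} (hV : IsOpen V) (hVn : V.Nonempty)
    (hVs : V ⊆ ball x₀ (e / 2)) : ∃ y ∈ V, Gen φ y := by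
  set C : ℕ → ℕ → Set Y := fun k n =>
    GG φ (1 / ((k : ℝ) + 1)) (1 / ((n : ℝ) + 1)) ∪ (ball x₀ (e / 2))ᶜ with hC
  have hCc : ∀ k n, IsClosed (C k n) := fun k n =>
    (isClosed_GG hb _ _).union isOpen_ball.isClosed_compl
  have hCu : ∀ k, ⋃ n, C k n = univ := by
    intro k
    rw [eq_univ_iff_forall]
    intro x
    by_cases hx : x ∈ ball x₀ (e / 2)
    · obtain ⟨τ₀, hτ, hmem⟩ := mem_GG hb he hext hx (ε := 1 / ((k : ℝ) + 1)) (by positivity)
      obtain ⟨n, hn⟩ := exists_nat_one_div_lt hτ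
      refine mem_iUnion.2 ⟨n, Or.inl ?_⟩
      intro τ h0 h1
      exact hmem τ h0 (h1.trans hn.le)
    · exact mem_iUnion.2 ⟨0, Or.inr hx⟩
  have hdense : Dense (⋂ k, ⋃ n, interior (C k n)) := by
    refine dense_iInter_of_isOpen (fun k => isOpen_iUnion fun n => isOpen_interior) fun k => ?_
    exact dense_iUnion_interior_of_closed (hCc k) (hCu k)
  obtain ⟨y, hyV, hy⟩ := hdense.inter_open_nonempty V hV hVn
  refine ⟨y, hyV, fun ε hε => ?_⟩
  obtain ⟨k, hk⟩ := exists_nat_one_div_lt hε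
  obtain ⟨n, hn⟩ := mem_iUnion.1 (mem_iInter.1 hy k)
  have hopen : IsOpen (interior (C k n) ∩ ball x₀ (e / 2)) := isOpen_interior.inter isOpen_ball
  obtain ⟨δ, hδ, hsub⟩ := Metric.isOpen_iff.1 hopen y ⟨hn, hVs hyV⟩
  refine ⟨min δ (1 / ((n : ℝ) + 1)), lt_min hδ (by positivity), ?_⟩
  intro x hx τ h0 h1 a b ha hb'
  have hx' := hsub (ball_subset_ball (min_le_left _ _) hx)
  have hxG : x ∈ GG φ (1 / ((k : ℝ) + 1)) (1 / ((n : ℝ) + 1)) := by
    rcases interior_subset hx'.1 with h | h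
    · exact h
    · exact absurd hx'.2 h
  have := hxG τ h0 (h1.trans (min_le_right _ _)) a b ha hb'
  have h2 : 1 / ((k : ℝ) + 1) * τ ≤ ε * τ := mul_le_mul_of_nonneg_right hk.le h0.le
  linarith

end Pool.Agent.Helper54_Busemann
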