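import Mathlib

/-!
# Midpoint spaces are normed spaces

A metric space with a symmetric midpoint operation such that `b ↦ m a b` is a bijective homothety
of ratio `1/2` is an abelian group with translation invariant metric; together with
segments from the origin it is a real normed space.
-/

namespace Pool.Agent.Helper54_Busemann

open Set Metric Filter Topology

/-- Midpoint operations with exact homothety property. -/
structure Mid {T : Type*} [MetricSpace T] (m : T → T → T) : Prop where
  comm : ∀ a b, m a b = m b a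
  self : ∀ a, m a a = a
  half : ∀ a b c, dist (m a b) (m a c) = 1 / 2 * dist b c
  surj : ∀ a c, ∃ b, m a b = c

namespace Mid

variable {T : Type*} [MetricSpace T] {m : T → T → T}

/-- The point reflection of `a` in `c`. -/
noncomputable def sg (h : Mid m) (c a : T) : T := (h.surj a c).choose

lemma m_sg (h : Mid m) (c a : T) : m a (h.sg c a) = c := (h.surj a c).choose_spec

lemma sg_uniq (h : Mid m) {a b c : T} (hab : m a b = c) : h.sg c a = b := by
  have h1 := h.half a (h.sg c a) b
  rw [h.m_sg, hab, dist_self] at h1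
  exact dist_eq_zero.1 (by linarith)

lemma sg_sg (h : Mid m) (c a : T) : h.sg c (h.sg c a) = a :=
  h.sg_uniq (by rw [h.comm]; exact h.m_sg c a)

lemma sg_self (h : Mid m) (c : T) : h.sg c c = c := h.sg_uniq (h.self c)

lemma dist_sg (h : Mid m) (c a b : T) : dist (h.sg c a) (h.sg c b) = dist a b := by
  have h1 := h.half a (h.sg c a) (h.sg c b)
  have h2 := h.half (h.sg c b) b a
  rw [h.m_sg] at h1
  rw [h.comm (h.sg c b) b, h.m_sg, h.comm (h.sg c b) a] at h2
  rw [dist_comm a b]
  linarith

lemma dist_sg_sg (h : Mid m) (c c' a : T) : dist (h.sg c a) (h.sg c' a) = 2 * dist c c' := by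
  have h1 := h.half a (h.sg c a) (h.sg c' a)
  rw [h.m_sg, h.m_sg] at h1
  linarith

lemma dist_sg_pt (h : Mid m) (c a : T) : dist (h.sg c a) a = 2 * dist c a := by
  have h1 := h.half a (h.sg c a) a
  rw [h.m_sg, h.self] at h1
  linarith

/-- The point reflection as an isometry. -/
noncomputable def R (h : Mid m) (c : T) : T ≃ᵢ T :=
  IsometryEquiv.mk' (h.sg c) (h.sg c) (h.sg_sg c) (Isometry.of_dist_eq (h.dist_sg c))

lemma R_apply (h : Mid m) (c a : T) : h.R c a = h.sg c a := rfl

lemma R_R (h : Mid m) (c a : T) : h.R c (h.R c a) = a := h.sg_sg c a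

lemma fixed (h : Mid m) (a b : T) :
    ∀ e : T ≃ᵢ T, e a = a → e b = b → e (m a b) = m a b := by
  set z := m a b with hz
  set s := {e : T ≃ᵢ T | e a = a ∧ e b = b} with hs
  have hne : Nonempty s := ⟨⟨IsometryEquiv.refl T, rfl, rfl⟩⟩
  have h_bdd : BddAbove (range fun e : s => dist ((e : T ≃ᵢ T) z) z) := by
    refine ⟨dist a z + dist a z, ?_⟩
    rintro _ ⟨⟨e, hx, _⟩, rfl⟩
    calc dist (e z) z ≤ dist (e z) a + dist a z := dist_triangle (e z) a z
      _ = dist (e a) (e z) + dist a z := by rw [hx, dist_comm]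
      _ = dist a z + dist a z := by rw [e.dist_eq a z]
  set f : T ≃ᵢ T → T ≃ᵢ T := fun e => ((e.trans (h.R z)).trans e.symm).trans (h.R z) with hf
  have hfa : ∀ e x, f e x = h.R z (e.symm (h.R z (e x))) := fun e x => rfl
  have hRz : h.R z z = z := h.sg_self z
  have hRa : h.R z a = b := h.sg_uniq hz.symm
  have hRb : h.R z b = a := by rw [← hRa]; exact h.R_R z a
  have hf_dist : ∀ e, dist (f e z) z = 2 * dist (e z) z := by
    intro e
    rw [hfa]
    calc dist (h.R z (e.symm (h.R z (e z)))) z
        = dist (h.R z (e.symm (h.R z (e z)))) (h.R z z) := by rw [hRz]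
      _ = dist (e.symm (h.R z (e z))) z := (h.R z).dist_eq _ _
      _ = dist (e (e.symm (h.R z (e z)))) (e z) := (e.dist_eq _ _).symm
      _ = dist (h.R z (e z)) (e z) := by rw [e.apply_symm_apply]
      _ = 2 * dist z (e z) := h.dist_sg_pt z (e z)
      _ = 2 * dist (e z) z := by rw [dist_comm]
  have hf_maps : ∀ e ∈ s, f e ∈ s := by
    rintro e ⟨hx, hy⟩
    have hx' : e.symm a = a := by
      conv_lhs => rw [← hx]
      exact e.symm_apply_apply a
    have hy' : e.symm b = b := by
      conv_lhs => rw [← hy]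
      exact e.symm_apply_apply b
    refine ⟨?_, ?_⟩
    · rw [hfa, hx, hRa, hy', hRb]
    · rw [hfa, hy, hRb, hx', hRa]
  set c := ⨆ e : s, dist ((e : T ≃ᵢ T) z) z with hc
  have h1 : c ≤ c / 2 := by
    apply ciSup_le
    rintro ⟨e, he⟩
    have h2 : dist (f e z) z ≤ c := le_ciSup h_bdd ⟨f e, hf_maps e he⟩
    rw [hf_dist] at h2
    change dist (e z) z ≤ c / 2
    linarith
  have h2 : c ≤ 0 := by linarith
  intro e hx hy
  have h3 : dist (e z) z ≤ c := le_ciSup h_bdd ⟨e, hx, hy⟩
  exact dist_le_zero.1 (h3.trans h2)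

/-- Mazur–Ulam: isometries preserve the midpoint operation. -/
theorem map_mid (h : Mid m) (g : T ≃ᵢ T) (a b : T) : g (m a b) = m (g a) (g b) := by
  set z := m a b with hz
  set z' := m (g a) (g b) with hz'
  set e : T ≃ᵢ T := ((g.trans (h.R z')).trans g.symm).trans (h.R z) with he
  have hea : ∀ x, e x = h.R z (g.symm (h.R z' (g x))) := fun x => rfl
  have hRa : h.R z a = b := h.sg_uniq hz.symm
  have hRb : h.R z b = a := by rw [← hRa]; exact h.R_R z a
  have hRa' : h.R z' (g a) = g b := h.sg_uniq hz'.symm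
  have hRb' : h.R z' (g b) = g a := by rw [← hRa']; exact h.R_R z' (g a)
  have h1 := h.fixed a b e (by rw [hea, hRa', g.symm_apply_apply, hRb])
    (by rw [hea, hRb', g.symm_apply_apply, hRa])
  rw [hea] at h1
  have h2 : g.symm (h.R z' (g z)) = z := by
    have := congrArg (h.R z) h1
    rw [h.R_R] at this
    rw [this]
    exact h.sg_self z
  have h3 : h.R z' (g z) = g z := by
    have := congrArg g h2
    rwa [g.apply_symm_apply] at this
  have h4 := h.dist_sg_pt z' (g z)
  rw [R_apply] at h3
  rw [h3, dist_self] at h4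
  exact (dist_eq_zero.1 (by linarith)).symm

/-- Isometries of bounded displacement fixing a point are trivial. -/
lemma rigid (h : Mid m) {g : T ≃ᵢ T} {o : T} (ho : g o = o) {C : ℝ}
    (hC : ∀ x, dist (g x) x ≤ C) (x : T) : g x = x := by
  have key : ∀ n : ℕ, ∀ x, dist (g x) x ≤ C * (1 / 2) ^ n := by
    intro n
    induction n with
    | zero => intro x; simpa using hC x
    | succ n ih =>
      intro x
      have h1 : m o (h.sg x o) = x := h.m_sg x o
      have h2 : g x = m o (g (h.sg x o)) := by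
        conv_lhs => rw [← h1]
        rw [h.map_mid, ho]
      have h3 : dist (g x) x = 1 / 2 * dist (g (h.sg x o)) (h.sg x o) := by
        conv_lhs => rw [h2]
        conv_lhs => arg 2; rw [← h1]
        exact h.half _ _ _
      rw [h3, pow_succ]
      have := ih (h.sg x o)
      linarith
  have hlim : Tendsto (fun n : ℕ => C * (1 / 2 : ℝ) ^ n) atTop (𝓝 (C * 0)) :=
    (tendsto_pow_atTop_nhds_zero_of_lt_one (by norm_num) (by norm_num)).const_mul C
  rw [mul_zero] at hlim
  have := ge_of_tendsto' hlim fun n => key n x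
  exact dist_le_zero.1 this

lemma rigid2 (h : Mid m) {g g' : T ≃ᵢ T} {o : T} (ho : g o = g' o) {C C' : ℝ}
    (hC : ∀ x, dist (g x) x ≤ C) (hC' : ∀ x, dist (g' x) x ≤ C') (x : T) : g x = g' x := by
  have h1 := h.rigid (g := g.trans g'.symm) (o := o) (C := C + C') (by
    change g'.symm (g o) = o
    rw [ho, g'.symm_apply_apply]) (fun x => by
    change dist (g'.symm (g x)) x ≤ C + C'
    have h2 : dist (g'.symm (g x)) x = dist (g x) (g' x) := by
      rw [← g'.dist_eq, g'.apply_symm_apply]
    rw [h2]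
    have h3 := dist_triangle_right (g x) (g' x) x
    linarith [hC x, hC' x]) x
  have h2 : g'.symm (g x) = x := h1
  have := congrArg g' h2
  rwa [g'.apply_symm_apply] at this

/-- Translation by `a` with respect to the origin `o`. -/
noncomputable def tr (h : Mid m) (o a : T) : T ≃ᵢ T := (h.R o).trans (h.R (m o a))

lemma tr_apply (h : Mid m) (o a x : T) : h.tr o a x = h.sg (m o a) (h.sg o x) := rfl

lemma tr_origin (h : Mid m) (o a : T) : h.tr o a o = a := by
  rw [tr_apply, h.sg_self]
  exact h.sg_uniq rfl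

lemma tr_zero (h : Mid m) (o x : T) : h.tr o o x = x := by
  rw [tr_apply, h.self, h.sg_sg]

lemma tr_disp (h : Mid m) (o a x : T) : dist (h.tr o a x) x = dist a o := by
  rw [tr_apply]
  have h1 := h.dist_sg_sg (m o a) o (h.sg o x)
  rw [h.sg_sg] at h1
  rw [h1]
  have h2 := h.half o a o
  rw [h.self] at h2
  rw [h2]; ring

lemma tr_symm_apply (h : Mid m) (o a x : T) : (h.tr o a).symm x = h.sg o (h.sg (m o a) x) := rfl

lemma tr_symm (h : Mid m) (o a x : T) : (h.tr o a).symm x = h.tr o (h.sg o a) x := by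
  refine h.rigid2 (g := (h.tr o a).symm) (g' := h.tr o (h.sg o a)) (o := o)
    (C := dist a o) (C' := dist (h.sg o a) o) ?_ ?_ ?_ x
  · rw [tr_origin, tr_symm_apply, h.sg_uniq (a := o) (b := a) rfl]
  · intro x
    have := h.tr_disp o a ((h.tr o a).symm x)
    rw [(h.tr o a).apply_symm_apply, dist_comm] at this
    exact this.le
  · intro x
    exact (h.tr_disp o _ x).le

lemma tr_tr (h : Mid m) (o a b x : T) : h.tr o (h.tr o a b) x = h.tr o a (h.tr o b x) := by
  have := h.rigid2 (g := h.tr o (h.tr o a b)) (g' := (h.tr o b).trans (h.tr o a)) (o := o)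
    (C := dist (h.tr o a b) o) (C' := dist a o + dist b o) ?_ ?_ ?_ x
  · exact this
  · rw [tr_origin]
    change h.tr o a b = h.tr o a (h.tr o b o)
    rw [tr_origin]
  · intro x
    exact (h.tr_disp o _ x).le
  · intro x
    change dist (h.tr o a (h.tr o b x)) x ≤ _
    have h1 := dist_triangle (h.tr o a (h.tr o b x)) (h.tr o b x) x
    rw [h.tr_disp, h.tr_disp] at h1
    exact h1

/-- The additive group structure with origin `o`. -/
noncomputable abbrev addGroup (h : Mid m) (o : T) : AddGroup T :=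
  letI : Add T := ⟨fun a b => h.tr o a b⟩
  letI : Zero T := ⟨o⟩
  letI : Neg T := ⟨fun a => h.sg o a⟩
  AddGroup.ofLeftAxioms (fun a b c => h.tr_tr o a b c) (fun a => h.tr_zero o a) (fun a => by
    change h.tr o (h.sg o a) a = o
    rw [← h.tr_symm]
    have := (h.tr o a).symm_apply_apply o
    rwa [h.tr_origin] at this)

lemma add_comm' (h : Mid m) (o a b : T) : h.tr o a b = h.tr o b a := by
  let _ := h.addGroup o
  have key : ∀ a b : T, -(a + b) = -a + -b := by
    intro a b
    change h.sg o (h.tr o a b) = h.tr o (h.sg o a) (h.sg o b)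
    rw [← h.tr_symm, h.tr_symm_apply, h.tr_apply]
  have h1 := key (-a) (-b)
  rw [neg_neg, neg_neg] at h1
  have : a + b = b + a := by rw [← h1, neg_add_rev, neg_neg, neg_neg]
  exact this

/-- The commutative group structure with origin `o`. -/
noncomputable abbrev addCommGroup (h : Mid m) (o : T) : AddCommGroup T :=
  { h.addGroup o with add_comm := fun a b => h.add_comm' o a b }

/-- The normed group structure with origin `o`. -/
noncomputable abbrev normedGroup (h : Mid m) (o : T) : NormedAddCommGroup T :=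
  { h.addCommGroup o with
    norm := fun a => dist a o
    toMetricSpace := inferInstance
    dist_eq := fun x y => by
      change dist x y = dist (h.tr o (h.sg o x) y) o
      have h1 : h.tr o (h.sg o x) x = o := by
        rw [← h.tr_symm]
        have := (h.tr o x).symm_apply_apply o
        rwa [h.tr_origin] at this
      conv_rhs => arg 2; rw [← h1]
      rw [(h.tr o (h.sg o x)).dist_eq, dist_comm] }

end Mid

section

universe u

variable {T : Type u} [MetricSpace T] {m : T → T → T}

/-- Segments from the origin. -/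
structure Seg (m : T → T → T) (o : T) (f : T → ℝ → T) : Prop where
  zero : ∀ x, f x 0 = o
  one : ∀ x, f x 1 = x
  mid : ∀ x, ∀ s ∈ Icc (0 : ℝ) 1, ∀ t ∈ Icc (0 : ℝ) 1, m (f x s) (f x t) = f x ((s + t) / 2)
  norm : ∀ x, ∀ s ∈ Icc (0 : ℝ) 1, dist (f x s) o = s * dist x o

theorem exists_normedSpace (h : Mid m) {o : T} {f : T → ℝ → T} (hf : Seg m o f) :
    ∃ (E : Type u) (_ : NormedAddCommGroup E) (_ : NormedSpace ℝ E) (e : T ≃ᵢ E), e o = 0 := by
  let _ : NormedAddCommGroup T := h.normedGroup o
  have hzero : (0 : T) = o := rfl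
  have hadd : ∀ a b : T, a + b = h.tr o a b := fun a b => rfl
  have hneg : ∀ a : T, -a = h.sg o a := fun a => rfl
  have hnorm : ∀ a : T, ‖a‖ = dist a o := fun a => rfl
  -- translations preserve midpoints
  have hmadd : ∀ a b c : T, m (c + a) (c + b) = c + m a b := fun a b c =>
    (h.map_mid (h.tr o c) a b).symm
  have hmneg : ∀ a : T, m a (-a) = 0 := fun a => h.m_sg o a
  have hm0 : ∀ a b : T, m a b = 0 → b = -a := fun a b hab => (h.sg_uniq hab).symm
  have hmid : ∀ a b : T, m a b + m a b = a + b := by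
    intro a b
    have h1 := hmadd a b (-(m a b))
    rw [neg_add_cancel] at h1
    have h2 := hm0 _ _ h1
    have h3 : b = m a b + -(-(m a b) + a) := by rw [← h2]; abel
    conv_rhs => rw [h3]
    abel
  have hdouble : ∀ x : T, ‖x + x‖ = 2 * ‖x‖ := by
    intro x
    have h1 : m 0 (x + x) = x := by
      have h2 := hmadd (-x) x x
      rw [add_neg_cancel] at h2
      rw [h2, h.comm, hmneg, add_zero]
    have h3 := h.half 0 (x + x) 0
    rw [h1, h.self] at h3
    rw [hnorm, hnorm]
    change dist x o = 1 / 2 * dist (x + x) o at h3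
    linarith
  -- partial additivity
  have hfadd : ∀ x, ∀ s ∈ Icc (0 : ℝ) 1, ∀ t ∈ Icc (0 : ℝ) 1, s + t ≤ 1 →
      f x (s + t) = f x s + f x t := by
    intro x s hs t ht hst
    have h1 := hmid (f x s) (f x t)
    rw [hf.mid x s hs t ht] at h1
    have h2 := hmid (f x (s + t)) (f x 0)
    rw [hf.mid x (s + t) ⟨add_nonneg hs.1 ht.1, hst⟩ 0 ⟨le_rfl, zero_le_one⟩, hf.zero,
      ← hzero, add_zero, add_zero] at h2
    rw [← h2, h1]
  have hfadd' : ∀ x, ∀ s ∈ Icc (0 : ℝ) 1, ∀ t ∈ Icc (0 : ℝ) 1, 1 ≤ s + t →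
      f x s + f x t = x + f x (s + t - 1) := by
    intro x s hs t ht hst
    have h1 := hmid (f x s) (f x t)
    rw [hf.mid x s hs t ht] at h1
    have h2 := hmid (f x 1) (f x (s + t - 1))
    rw [hf.mid x 1 ⟨zero_le_one, le_rfl⟩ (s + t - 1) ⟨by linarith, by linarith [hs.2, ht.2]⟩,
      hf.one, show (1 + (s + t - 1)) / 2 = (s + t) / 2 by ring] at h2
    rw [← h1, h2]
  -- the one parameter groups
  set F : T → ℝ → T := fun x c => ⌊c⌋ • x + f x (Int.fract c) with hF
  have hfr : ∀ c : ℝ, Int.fract c ∈ Icc (0 : ℝ) 1 := fun c =>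
    ⟨Int.fract_nonneg c, (Int.fract_lt_one c).le⟩
  have hFadd : ∀ x a b, F x (a + b) = F x a + F x b := by
    intro x a b
    have ha := Int.floor_add_fract a
    have hb := Int.floor_add_fract b
    have ha0 := Int.fract_nonneg a
    have hb0 := Int.fract_nonneg b
    have ha1 := Int.fract_lt_one a
    have hb1 := Int.fract_lt_one b
    simp only [hF]
    rcases lt_or_ge (Int.fract a + Int.fract b) 1 with hlt | hge
    · have hfl : ⌊a + b⌋ = ⌊a⌋ + ⌊b⌋ := by
        rw [Int.floor_eq_iff]; push_cast; constructor <;> linarith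
      have hfrac : Int.fract (a + b) = Int.fract a + Int.fract b := by
        rw [Int.fract, hfl]; push_cast; linarith
      rw [hfl, hfrac, add_zsmul, hfadd x _ (hfr a) _ (hfr b) hlt.le]
      abel
    · have hfl : ⌊a + b⌋ = ⌊a⌋ + ⌊b⌋ + 1 := by
        rw [Int.floor_eq_iff]; push_cast; constructor <;> linarith
      have hfrac : Int.fract (a + b) = Int.fract a + Int.fract b - 1 := by
        rw [Int.fract, hfl]; push_cast; linarith
      rw [hfl, hfrac, add_zsmul, add_zsmul, one_zsmul]
      have := hfadd' x _ (hfr a) _ (hfr b) hge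
      have h3 : ⌊a⌋ • x + f x (Int.fract a) + (⌊b⌋ • x + f x (Int.fract b)) =
        ⌊a⌋ • x + ⌊b⌋ • x + (f x (Int.fract a) + f x (Int.fract b)) := by abel
      rw [h3, this]
      abel
  have hF1 : ∀ x, F x 1 = x := by
    intro x
    simp only [hF, Int.floor_one, one_zsmul, Int.fract_one, hf.zero]
    exact add_zero x
  have hF0 : ∀ x, F x 0 = 0 := by
    intro x
    simp only [hF, Int.floor_zero, zero_zsmul, Int.fract_zero, hf.zero]
    exact add_zero 0
  have hFneg : ∀ x c, F x (-c) = - F x c := by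
    intro x c
    have := hFadd x (-c) c
    rw [neg_add_cancel, hF0] at this
    exact eq_neg_of_add_eq_zero_left this.symm
  have hFf : ∀ x, ∀ c ∈ Ico (0 : ℝ) 1, F x c = f x c := by
    intro x c hc
    have h1 : ⌊c⌋ = 0 := Int.floor_eq_zero_iff.2 hc
    have h2 : Int.fract c = c := Int.fract_eq_self.2 hc
    simp only [hF, h1, h2, zero_zsmul, zero_add]
  have hFnorm : ∀ x c, ‖F x c‖ = |c| * ‖x‖ := by
    have hpos : ∀ n : ℕ, ∀ x, ∀ c : ℝ, 0 ≤ c → c < 2 ^ n → ‖F x c‖ = c * ‖x‖ := by
      intro n
      induction n with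
      | zero =>
        intro x c h0 h1
        rw [hFf x c ⟨h0, by simpa using h1⟩, hnorm, hnorm]
        exact hf.norm x c ⟨h0, by simpa using h1.le⟩
      | succ n ih =>
        intro x c h0 h1
        have h2 : F x c = F x (c / 2) + F x (c / 2) := by
          rw [← hFadd]; congr 1; ring
        rw [h2, hdouble, ih x (c / 2) (by linarith) (by rw [pow_succ] at h1; linarith)]
        ring
    have hpos' : ∀ x, ∀ c : ℝ, 0 ≤ c → ‖F x c‖ = c * ‖x‖ := by
      intro x c h0
      obtain ⟨n, hn⟩ := pow_unbounded_of_one_lt c (by norm_num : (1 : ℝ) < 2)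
      exact hpos n x c h0 hn
    intro x c
    rcases le_total 0 c with h0 | h0
    · rw [hpos' x c h0, abs_of_nonneg h0]
    · have := hpos' x (-c) (by linarith)
      rw [hFneg, norm_neg] at this
      rw [this, abs_of_nonpos h0]
  -- uniqueness of one parameter groups
  have huniq : ∀ g : ℝ → T, (∀ a b, g (a + b) = g a + g b) →
      (∃ C : ℝ, ∀ c ∈ Icc (0 : ℝ) 1, ‖g c‖ ≤ C) → g 1 = 0 → ∀ c, g c = 0 := by
    rintro g hg ⟨C, hC⟩ hg1 c
    set G : ℝ →+ T := AddMonoidHom.mk' g hg with hG
    have hGg : ∀ c, G c = g c := fun c => rfl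
    have hbd : ∀ c, ‖g c‖ ≤ C := by
      intro c
      have h1 : g c = g (Int.fract c) := by
        conv_lhs => rw [← Int.floor_add_fract c]
        rw [hg]
        have h2 : g ((⌊c⌋ : ℤ) : ℝ) = 0 := by
          rw [← hGg]
          have : ((⌊c⌋ : ℤ) : ℝ) = ⌊c⌋ • (1 : ℝ) := by simp
          rw [this, map_zsmul, hGg, hg1, smul_zero]
        rw [h2, zero_add]
      rw [h1]
      exact hC _ (hfr c)
    have hpow : ∀ n : ℕ, ∀ c, ‖g c‖ ≤ C * (1 / 2) ^ n := by
      intro n
      induction n with
      | zero => intro c; simpa using hbd c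
      | succ n ih =>
        intro c
        have h1 : ‖g (c + c)‖ = 2 * ‖g c‖ := by rw [hg, hdouble]
        have h2 := ih (c + c)
        rw [pow_succ]
        linarith
    have hlim : Tendsto (fun n : ℕ => C * (1 / 2 : ℝ) ^ n) atTop (𝓝 (C * 0)) :=
      (tendsto_pow_atTop_nhds_zero_of_lt_one (by norm_num) (by norm_num)).const_mul C
    rw [mul_zero] at hlim
    have := ge_of_tendsto' hlim fun n => hpow n c
    exact norm_le_zero_iff.1 this
  have huniq2 : ∀ g g' : ℝ → T, (∀ a b, g (a + b) = g a + g b) →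
      (∀ a b, g' (a + b) = g' a + g' b) →
      (∃ C : ℝ, ∀ c ∈ Icc (0 : ℝ) 1, ‖g c‖ ≤ C) → (∃ C : ℝ, ∀ c ∈ Icc (0 : ℝ) 1, ‖g' c‖ ≤ C) →
      g 1 = g' 1 → ∀ c, g c = g' c := by
    rintro g g' hg hg' ⟨C, hC⟩ ⟨C', hC'⟩ h1 c
    have := huniq (fun c => g c - g' c) (fun a b => by
        simp only [hg a b, hg' a b]; abel)
      ⟨C + C', fun c hc => (norm_sub_le _ _).trans (add_le_add (hC c hc) (hC' c hc))⟩
      (by simp only [h1]; exact sub_self _) c
    exact sub_eq_zero.1 this
  have hFb : ∀ x, ∃ C : ℝ, ∀ c ∈ Icc (0 : ℝ) 1, ‖F x c‖ ≤ C := by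
    intro x
    refine ⟨‖x‖, fun c hc => ?_⟩
    rw [hFnorm, abs_of_nonneg hc.1]
    have := norm_nonneg x
    nlinarith [hc.2]
  let _ : Module ℝ T :=
    { smul := fun c x => F x c
      one_smul := hF1
      mul_smul := fun c d x => by
        change F x (c * d) = F (F x d) c
        refine huniq2 (fun c => F x (c * d)) (F (F x d)) (fun a b => ?_) (hFadd _) ?_ (hFb _) ?_ c
        · simp only [add_mul, hFadd]
        · refine ⟨|d| * ‖x‖, fun c hc => ?_⟩
          rw [hFnorm, abs_mul, abs_of_nonneg hc.1]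
          have := norm_nonneg x
          have h2 := abs_nonneg d
          have h3 : 0 ≤ |d| * ‖x‖ := mul_nonneg h2 this
          nlinarith [hc.2]
        · simp only [one_mul, hF1]
      smul_zero := fun c => by
        change F 0 c = 0
        have := hFnorm 0 c
        rw [norm_zero, mul_zero] at this
        exact norm_eq_zero.1 this
      zero_smul := fun x => hF0 x
      add_smul := fun a b x => hFadd x a b
      smul_add := fun c x y => by
        change F (x + y) c = F x c + F y c
        refine huniq2 (F (x + y)) (fun c => F x c + F y c) (hFadd _) (fun a b => ?_) (hFb _) ?_ ?_ c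
        · simp only [hFadd]; abel
        · obtain ⟨C, hC⟩ := hFb x
          obtain ⟨C', hC'⟩ := hFb y
          exact ⟨C + C', fun c hc => (norm_add_le _ _).trans (add_le_add (hC c hc) (hC' c hc))⟩
        · simp only [hF1] }
  let _ : NormedSpace ℝ T :=
    { norm_smul_le := fun c x => by
        change ‖F x c‖ ≤ ‖c‖ * ‖x‖
        rw [hFnorm, Real.norm_eq_abs] }
  exact ⟨T, inferInstance, inferInstance, IsometryEquiv.refl T, rfl⟩

end

end Pool.Agent.Helper54_Busemann
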