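import Mathlib
import Pool.Agent.Helper54_Busemann.Blow
import Pool.Agent.Helper54_Busemann.Midpoint

/-!
# Ultralimit tangent space at a generic point
-/

namespace Pool.Agent.Helper54_Busemann

open Set Metric MeasureTheory Filter Topology

universe u

/-- The ultrafilter used for blow ups. -/
noncomputable abbrev UU : Ultrafilter ℕ := hyperfilter ℕ

lemma UU_le : (UU : Filter ℕ) ≤ atTop := Nat.hyperfilter_le_atTop

/-- ultralimits of real sequences -/
noncomputable def ulim (f : ℕ → ℝ) : ℝ := limUnder (UU : Filter ℕ) f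

lemma exists_lim_of_bounded {f : ℕ → ℝ} {C : ℝ} (h : ∀ n, |f n| ≤ C) :
    ∃ x, Tendsto f (UU : Filter ℕ) (𝓝 x) := by
  have hc : IsCompact (Icc (-C) C) := isCompact_Icc
  obtain ⟨x, -, hx⟩ := hc.ultrafilter_le_nhds (UU.map f) (by
    rw [le_principal_iff]
    exact Filter.mem_map.2 (Eventually.of_forall fun n => abs_le.1 (h n)))
  exact ⟨x, hx⟩

lemma tendsto_ulim {f : ℕ → ℝ} {C : ℝ} (h : ∀ n, |f n| ≤ C) :
    Tendsto f (UU : Filter ℕ) (𝓝 (ulim f)) :=
  tendsto_nhds_limUnder (exists_lim_of_bounded h)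

lemma ulim_eq {f : ℕ → ℝ} {x : ℝ} (h : Tendsto f (UU : Filter ℕ) (𝓝 x)) : ulim f = x :=
  h.limUnder_eq

/-- Sequences converging to `y` at linear rate. -/
@[ext]
structure Sq {Y : Type u} [MetricSpace Y] (y : Y) : Type u where
  /-- the sequence -/
  val : ℕ → Y
  /-- the linear rate -/
  bdd : ∃ C : ℝ, ∀ n, 2 ^ n * dist (val n) y ≤ C

section

variable {Y : Type u} [MetricSpace Y] {y : Y}

lemma Sq.bounded (a b : Sq y) : ∃ C : ℝ, ∀ n : ℕ, |2 ^ n * dist (a.1 n) (b.1 n)| ≤ C := by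
  obtain ⟨A, hA⟩ := a.2
  obtain ⟨B, hB⟩ := b.2
  refine ⟨A + B, fun n => ?_⟩
  rw [abs_of_nonneg (mul_nonneg (by positivity) dist_nonneg)]
  have h1 := dist_triangle_right (a.1 n) (b.1 n) y
  have h2 : (2 : ℝ) ^ n * dist (a.1 n) (b.1 n) ≤ 2 ^ n * (dist (a.1 n) y + dist (b.1 n) y) :=
    mul_le_mul_of_nonneg_left h1 (by positivity)
  have h3 := hA n
  have h4 := hB n
  linarith

lemma Sq.tendsto (a b : Sq y) : Tendsto (fun n : ℕ => 2 ^ n * dist (a.1 n) (b.1 n))
    (UU : Filter ℕ) (𝓝 (ulim fun n => 2 ^ n * dist (a.1 n) (b.1 n))) := by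
  obtain ⟨C, hC⟩ := Sq.bounded a b
  exact tendsto_ulim hC

noncomputable instance : PseudoMetricSpace (Sq y) where
  dist a b := ulim fun n => 2 ^ n * dist (a.1 n) (b.1 n)
  dist_self a := ulim_eq (by simp only [dist_self, mul_zero]; exact tendsto_const_nhds)
  dist_comm a b := by simp only [dist_comm]
  dist_triangle a b c := by
    refine le_of_tendsto_of_tendsto' (Sq.tendsto a c) ((Sq.tendsto a b).add (Sq.tendsto b c))
      fun n => ?_
    rw [← mul_add]
    exact mul_le_mul_of_nonneg_left (dist_triangle _ _ _) (by positivity)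

lemma Sq.dist_def (a b : Sq y) : dist a b = ulim fun n => 2 ^ n * dist (a.1 n) (b.1 n) := rfl

lemma Sq.tendsto_dist (a b : Sq y) : Tendsto (fun n : ℕ => 2 ^ n * dist (a.1 n) (b.1 n))
    (UU : Filter ℕ) (𝓝 (dist a b)) := Sq.tendsto a b

/-- The tangent space: the ultralimit of the rescaled spaces. -/
abbrev TT (y : Y) : Type u := SeparationQuotient (Sq y)

/-- The class of a sequence. -/
noncomputable abbrev cls (a : Sq y) : TT y := SeparationQuotient.mk a

lemma dist_cls (a b : Sq y) : dist (cls a) (cls b) = dist a b := SeparationQuotient.dist_mk a b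

lemma cls_surj (A : TT y) : ∃ a : Sq y, cls a = A := SeparationQuotient.surjective_mk A

/-- A representative. -/
noncomputable def out (A : TT y) : Sq y := (cls_surj A).choose

lemma cls_out (A : TT y) : cls (out A) = A := (cls_surj A).choose_spec

lemma cls_eq {a b : Sq y} (h : dist a b = 0) : cls a = cls b := by
  rw [← dist_eq_zero, dist_cls, h]

lemma tendsto_cls (a b : Sq y) : Tendsto (fun n : ℕ => 2 ^ n * dist (a.1 n) (b.1 n))
    (UU : Filter ℕ) (𝓝 (dist (cls a) (cls b))) := by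
  rw [dist_cls]; exact Sq.tendsto_dist a b

/-- Sequences in the class converge to `y`. -/
lemma Sq.tendsto_y (a : Sq y) : Tendsto (fun n => dist (a.1 n) y) atTop (𝓝 0) := by
  obtain ⟨C, hC⟩ := a.2
  have h1 : Tendsto (fun n : ℕ => C * (1 / 2 : ℝ) ^ n) atTop (𝓝 (C * 0)) :=
    (tendsto_pow_atTop_nhds_zero_of_lt_one (by norm_num) (by norm_num)).const_mul C
  rw [mul_zero] at h1
  refine squeeze_zero (fun _ => dist_nonneg) (fun n => ?_) h1
  have h2 := hC n
  have h3 := two_pow_mul_half n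
  have h4 : (0 : ℝ) < (1 / 2) ^ n := by positivity
  calc dist (a.1 n) y = (2 ^ n * dist (a.1 n) y) * (1 / 2) ^ n := by
        linear_combination (-dist (a.1 n) y) * h3
    _ ≤ C * (1 / 2) ^ n := mul_le_mul_of_nonneg_right h2 h4.le

end

section

variable {Y : Type u} [MetricSpace Y] {φ : Y → Y → ℝ → Y} {y : Y}

/-- midpoints of sequences -/
noncomputable def midS (hb : Bic φ) (a b : Sq y) : Sq y :=
  ⟨fun n => φ (a.1 n) (b.1 n) (1 / 2), by
    obtain ⟨A, hA⟩ := a.2
    obtain ⟨B, hB⟩ := b.2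
    refine ⟨A + B, fun n => ?_⟩
    have h1 := hb.conv_pt y (a.1 n) (b.1 n) half_mem
    rw [dist_comm y (a.1 n), dist_comm y (b.1 n), dist_comm] at h1
    have h2 : (2 : ℝ) ^ n * dist (φ (a.1 n) (b.1 n) (1 / 2)) y ≤
        2 ^ n * (dist (a.1 n) y + dist (b.1 n) y) := by
      refine mul_le_mul_of_nonneg_left ?_ (by positivity)
      have h3 := dist_nonneg (x := a.1 n) (y := y)
      have h4 := dist_nonneg (x := b.1 n) (y := y)
      linarith
    have h3 := hA n
    have h4 := hB n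
    linarith⟩

lemma dist_midS_le (hb : Bic φ) (a b a' b' : Sq y) :
    dist (midS hb a b) (midS hb a' b') ≤ 1 / 2 * dist a a' + 1 / 2 * dist b b' := by
  refine le_of_tendsto_of_tendsto' (Sq.tendsto_dist _ _)
    (((Sq.tendsto_dist a a').const_mul (1 / 2)).add ((Sq.tendsto_dist b b').const_mul (1 / 2)))
    fun n => ?_
  have h1 := hb.conv (a.1 n) (b.1 n) (a'.1 n) (b'.1 n) (1 / 2) half_mem
  have h2 : (2 : ℝ) ^ n * dist (φ (a.1 n) (b.1 n) (1 / 2)) (φ (a'.1 n) (b'.1 n) (1 / 2)) ≤
      2 ^ n * ((1 - 1 / 2) * dist (a.1 n) (a'.1 n) + 1 / 2 * dist (b.1 n) (b'.1 n)) :=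
    mul_le_mul_of_nonneg_left h1 (by positivity)
  change (2 : ℝ) ^ n * dist (φ (a.1 n) (b.1 n) (1 / 2)) (φ (a'.1 n) (b'.1 n) (1 / 2)) ≤ _
  linarith

/-- The midpoint operation on the tangent space. -/
noncomputable def mT (hb : Bic φ) (A B : TT y) : TT y := cls (midS hb (out A) (out B))

lemma mT_cls (hb : Bic φ) (a b : Sq y) : mT hb (cls a) (cls b) = cls (midS hb a b) := by
  apply cls_eq
  have h1 : dist (out (cls a)) a = 0 := by rw [← dist_cls, cls_out, dist_self]
  have h2 : dist (out (cls b)) b = 0 := by rw [← dist_cls, cls_out, dist_self]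
  have h3 := dist_midS_le hb (out (cls a)) (out (cls b)) a b
  rw [h1, h2] at h3
  exact le_antisymm (by linarith) dist_nonneg

/-- The origin. -/
def oS (y : Y) : Sq y := ⟨fun _ => y, 0, fun n => by simp⟩

lemma dist_oS (a : Sq y) : Tendsto (fun n : ℕ => 2 ^ n * dist (a.1 n) y)
    (UU : Filter ℕ) (𝓝 (dist (cls a) (cls (oS y)))) := tendsto_cls a (oS y)

/-- If two sequences agree almost everywhere their classes agree. -/
lemma cls_eq_of_eventually {a b : Sq y} (h : ∀ᶠ n in (UU : Filter ℕ), a.1 n = b.1 n) :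
    cls a = cls b := by
  apply cls_eq
  refine tendsto_nhds_unique (Sq.tendsto_dist a b) ?_
  refine tendsto_const_nhds.congr' ?_
  filter_upwards [h] with n hn
  rw [hn, dist_self, mul_zero]

/-- The hypotheses on a good point. -/
structure Good (φ : Y → Y → ℝ → Y) (y : Y) (e : ℝ) : Prop where
  bic : Bic φ
  pos : 0 < e
  inj : ∀ (p : Y) (s : ℝ), s ∈ Ioc (0 : ℝ) 1 → Function.Injective fun y => φ p y s
  ext : ∀ a ∈ ball y e, Ext a e
  gen : Gen φ y

theorem Good.mid {e : ℝ} (h : Good φ y e) : Mid (mT (y := y) h.bic) := by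
  have hb := h.bic
  refine ⟨?_, ?_, ?_, ?_⟩
  · intro A B
    obtain ⟨a, rfl⟩ := cls_surj A
    obtain ⟨b, rfl⟩ := cls_surj B
    rw [mT_cls, mT_cls]
    congr 1
    refine Sq.ext (funext fun n => ?_)
    change φ (a.1 n) (b.1 n) (1 / 2) = φ (b.1 n) (a.1 n) (1 / 2)
    rw [hb.symm (a.1 n) (b.1 n) half_mem]
    norm_num
  · intro A
    obtain ⟨a, rfl⟩ := cls_surj A
    rw [mT_cls]
    congr 1
    refine Sq.ext (funext fun n => ?_)
    exact hb.self (a.1 n) half_mem
  · intro A B C
    obtain ⟨a, rfl⟩ := cls_surj A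
    obtain ⟨b, rfl⟩ := cls_surj B
    obtain ⟨c, rfl⟩ := cls_surj C
    rw [mT_cls, mT_cls]
    refine le_antisymm ?_ ?_
    · rw [dist_cls, dist_cls]
      have := dist_midS_le hb a b a c
      rw [dist_self] at this
      linarith
    · obtain ⟨K₁, hK₁⟩ := Sq.bounded a b
      obtain ⟨K₂, hK₂⟩ := Sq.bounded a c
      set K := max K₁ K₂ + 1 with hK
      have hK0 : 0 < K := by
        have : 0 ≤ K₁ := (abs_nonneg _).trans (hK₁ 0)
        have := le_max_left K₁ K₂
        linarith
      refine le_of_forall_pos_le_add fun ε hε => ?_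
      obtain ⟨τ₀, hτ0, hsub⟩ := h.gen (ε / K) (by positivity)
      refine le_of_tendsto_of_tendsto ((tendsto_cls b c).const_mul (1 / 2))
        ((tendsto_cls (midS hb a b) (midS hb a c)).add_const ε) ?_
      have e1 : ∀ᶠ n in (UU : Filter ℕ), dist (a.1 n) y < τ₀ :=
        UU_le ((Sq.tendsto_y a).eventually (gt_mem_nhds hτ0))
      have e2 : ∀ᶠ n : ℕ in (UU : Filter ℕ), K * (1 / 2 : ℝ) ^ n < τ₀ := by
        have h1 : Tendsto (fun n : ℕ => K * (1 / 2 : ℝ) ^ n) atTop (𝓝 (K * 0)) :=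
          (tendsto_pow_atTop_nhds_zero_of_lt_one (by norm_num) (by norm_num)).const_mul K
        rw [mul_zero] at h1
        exact UU_le (h1.eventually (gt_mem_nhds hτ0))
      filter_upwards [e1, e2] with n hn1 hn2
      have h2 := two_pow_mul_half n
      have hp : (0 : ℝ) < 2 ^ n := by positivity
      have hh : (0 : ℝ) < (1 / 2) ^ n := by positivity
      have hclose : ∀ d : Sq y, |2 ^ n * dist (a.1 n) (d.1 n)| ≤ max K₁ K₂ →
          dist (d.1 n) (a.1 n) < K * (1 / 2) ^ n := by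
        intro d hd
        rw [abs_of_nonneg (mul_nonneg hp.le dist_nonneg)] at hd
        have h3 : 2 ^ n * dist (a.1 n) (d.1 n) < K := by rw [hK]; linarith
        rw [dist_comm]
        calc dist (a.1 n) (d.1 n) = (2 ^ n * dist (a.1 n) (d.1 n)) * (1 / 2) ^ n := by
              linear_combination (-dist (a.1 n) (d.1 n)) * h2
          _ < K * (1 / 2) ^ n := mul_lt_mul_of_pos_right h3 hh
      have h4 := hsub (mem_ball.2 hn1) (K * (1 / 2) ^ n) (by positivity) hn2.le (b.1 n) (c.1 n)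
        (hclose b ((hK₁ n).trans (le_max_left _ _))) (hclose c ((hK₂ n).trans (le_max_right _ _)))
      have h5 : 2 ^ n * (1 / 2 * dist (b.1 n) (c.1 n)) ≤
          2 ^ n * (dist (φ (a.1 n) (b.1 n) (1 / 2)) (φ (a.1 n) (c.1 n) (1 / 2)) +
            ε / K * (K * (1 / 2) ^ n)) := mul_le_mul_of_nonneg_left h4 hp.le
      have h6 : 2 ^ n * (ε / K * (K * (1 / 2) ^ n)) = ε := by
        have : ε / K * (K * (1 / 2 : ℝ) ^ n) = ε * (1 / 2) ^ n := by
          field_simp
        rw [this]
        linear_combination ε * h2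
      change 1 / 2 * (2 ^ n * dist (b.1 n) (c.1 n)) ≤
        2 ^ n * dist (φ (a.1 n) (b.1 n) (1 / 2)) (φ (a.1 n) (c.1 n) (1 / 2)) + ε
      rw [mul_add, h6] at h5
      linarith
  · intro A C
    obtain ⟨a, rfl⟩ := cls_surj A
    obtain ⟨c, rfl⟩ := cls_surj C
    classical
    set P : ℕ → Y → Prop := fun n b' => φ (a.1 n) b' (1 / 2) = c.1 n ∧
      dist (a.1 n) (c.1 n) = 1 / 2 * dist (a.1 n) b' with hP
    set b : ℕ → Y := fun n => if hn : ∃ b', P n b' then hn.choose else y with hbdef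
    have hbP : ∀ n, (∃ b', P n b') → P n (b n) := by
      intro n hn
      simp only [hbdef, dif_pos hn]
      exact hn.choose_spec
    obtain ⟨K₁, hK₁⟩ := Sq.bounded a c
    obtain ⟨K₂, hK₂⟩ := a.2
    have hK₁0 : 0 ≤ K₁ := (abs_nonneg _).trans (hK₁ 0)
    have hK₂0 : 0 ≤ K₂ := (mul_nonneg (by positivity) dist_nonneg).trans (hK₂ 0)
    have hbound : ∃ C : ℝ, ∀ n, 2 ^ n * dist (b n) y ≤ C := by
      refine ⟨2 * K₁ + K₂, fun n => ?_⟩
      by_cases hn : ∃ b', P n b'
      · have h1 := (hbP n hn).2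
        have h2 := dist_triangle (b n) (a.1 n) y
        rw [dist_comm (b n) (a.1 n)] at h2
        have h3 := hK₁ n
        rw [abs_of_nonneg (mul_nonneg (by positivity) dist_nonneg)] at h3
        have h4 := hK₂ n
        have h5 : (2 : ℝ) ^ n * dist (b n) y ≤ 2 ^ n * (dist (a.1 n) (b n) + dist (a.1 n) y) :=
          mul_le_mul_of_nonneg_left h2 (by positivity)
        have h6 : (2 : ℝ) ^ n * dist (a.1 n) (b n) = 2 * (2 ^ n * dist (a.1 n) (c.1 n)) := by
          rw [h1]; ring
        linarith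
      · have : b n = y := by simp only [hbdef, dif_neg hn]
        rw [this, dist_self, mul_zero]
        positivity
    refine ⟨cls ⟨b, hbound⟩, ?_⟩
    rw [mT_cls]
    apply cls_eq_of_eventually
    have e1 : ∀ᶠ n in (UU : Filter ℕ), dist (c.1 n) y < e :=
      UU_le ((Sq.tendsto_y c).eventually (gt_mem_nhds h.pos))
    have e2 : ∀ᶠ n in (UU : Filter ℕ), dist (a.1 n) (c.1 n) < e := by
      have h1 : Tendsto (fun n => dist (a.1 n) y + dist (c.1 n) y) atTop (𝓝 (0 + 0)) :=
        (Sq.tendsto_y a).add (Sq.tendsto_y c)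
      rw [add_zero] at h1
      filter_upwards [UU_le (h1.eventually (gt_mem_nhds h.pos))] with n hn
      exact lt_of_le_of_lt (dist_triangle_right _ _ _) hn
    filter_upwards [e1, e2] with n hn1 hn2
    have h1 := exists_dil hb (y := a.1 n) (h.ext (c.1 n) hn1)
      (l := 1 / 2) ⟨by norm_num, by norm_num⟩ (by
        rw [show (1 : ℝ) / (1 / 2) - 1 = 1 by norm_num, one_mul]
        exact hn2.le)
    exact (hbP n h1).1

/-- Segments from the origin, on sequences. -/
noncomputable def segS (hb : Bic φ) (a : Sq y) (s : ℝ) : Sq y :=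
  ⟨fun n => φ y (a.1 n) s, by
    obtain ⟨A, hA⟩ := a.2
    refine ⟨A, fun n => ?_⟩
    rw [hb.clamp]
    set u := max 0 (min 1 s) with hu
    have hu' : u ∈ Icc (0 : ℝ) 1 := ⟨le_max_left _ _, max_le zero_le_one (min_le_left _ _)⟩
    rw [dist_comm, hb.dist_left _ _ _ hu', dist_comm y]
    refine le_trans ?_ (hA n)
    refine mul_le_mul_of_nonneg_left ?_ (by positivity)
    have := dist_nonneg (x := a.1 n) (y := y)
    nlinarith [hu'.2]⟩

/-- Segments from the origin. -/
noncomputable def segT (hb : Bic φ) (A : TT y) (s : ℝ) : TT y := cls (segS hb (out A) s)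

theorem segT_seg (hb : Bic φ) : Seg (mT (y := y) hb) (cls (oS y)) (segT hb) := by
  refine ⟨?_, ?_, ?_, ?_⟩
  · intro A
    unfold segT
    congr 1
    refine Sq.ext (funext fun n => ?_)
    exact hb.zero _ _
  · intro A
    unfold segT
    conv_rhs => rw [← cls_out A]
    congr 1
    refine Sq.ext (funext fun n => ?_)
    exact hb.one _ _
  · intro A s hs t ht
    unfold segT
    rw [mT_cls]
    congr 1
    refine Sq.ext (funext fun n => ?_)
    change φ (φ y ((out A).1 n) s) (φ y ((out A).1 n) t) (1 / 2) = φ y ((out A).1 n) ((s + t) / 2)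
    have hst : (s + t) / 2 ∈ Icc (0 : ℝ) 1 :=
      ⟨by linarith [hs.1, ht.1], by linarith [hs.2, ht.2]⟩
    refine (hb.uniq _ _ _ _ half_mem ?_ ?_).symm
    · rw [hb.dist_same _ _ hs hst, hb.dist_same _ _ hs ht]
      have : s - (s + t) / 2 = 1 / 2 * (s - t) := by ring
      rw [this, abs_mul, abs_of_pos (by norm_num : (0 : ℝ) < 1 / 2)]
      ring
    · rw [hb.dist_same _ _ hst ht, hb.dist_same _ _ hs ht]
      have : (s + t) / 2 - t = 1 / 2 * (s - t) := by ring
      rw [this, abs_mul, abs_of_pos (by norm_num : (0 : ℝ) < 1 / 2)]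
      ring
  · intro A s hs
    unfold segT
    conv_rhs => rw [← cls_out A]
    refine tendsto_nhds_unique (dist_oS _) ?_
    refine ((dist_oS (out A)).const_mul s).congr fun n => ?_
    change s * (2 ^ n * dist ((out A).1 n) y) = 2 ^ n * dist (φ y ((out A).1 n) s) y
    rw [dist_comm (φ y ((out A).1 n) s) y, hb.dist_left _ _ _ hs, dist_comm y]
    ring

/-- The logarithm on sequences. -/
noncomputable def logS (hb : Bic φ) (y z : Y) : Sq y :=
  ⟨fun n => φ y z ((1 / 2) ^ n), dist z y, fun n => by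
    rw [dist_comm, hb.dist_left _ _ _ (half_pow_mem' n), dist_comm y, ← mul_assoc,
      two_pow_mul_half, one_mul]⟩

lemma dist_logS (hb : Bic φ) (z : Y) : dist (cls (logS hb y z)) (cls (oS y)) = dist z y := by
  refine tendsto_nhds_unique (dist_oS _) ?_
  refine tendsto_const_nhds.congr fun n => ?_
  change dist z y = 2 ^ n * dist (φ y z ((1 / 2) ^ n)) y
  rw [dist_comm (φ y z ((1 / 2) ^ n)) y, hb.dist_left _ _ _ (half_pow_mem' n), dist_comm y,
    ← mul_assoc, two_pow_mul_half, one_mul]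

lemma dist_logS_le (hb : Bic φ) (z w : Y) :
    dist (cls (logS hb y z)) (cls (logS hb y w)) ≤ dist z w := by
  refine le_of_tendsto' (tendsto_cls _ _) fun n => ?_
  change 2 ^ n * dist (φ y z ((1 / 2) ^ n)) (φ y w ((1 / 2) ^ n)) ≤ dist z w
  have h1 := hb.contr y z w (half_pow_mem' n)
  have h2 : (2 : ℝ) ^ n * dist (φ y z ((1 / 2) ^ n)) (φ y w ((1 / 2) ^ n)) ≤
      2 ^ n * ((1 / 2) ^ n * dist z w) := mul_le_mul_of_nonneg_left h1 (by positivity)
  rw [← mul_assoc, two_pow_mul_half, one_mul] at h2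
  exact h2

theorem Good.log_inj {e : ℝ} (h : Good φ y e) {z w : Y}
    (hzw : cls (logS h.bic y z) = cls (logS h.bic y w)) : z = w := by
  have hb := h.bic
  have hd : dist z y = dist w y := by
    rw [← dist_logS hb z, ← dist_logS hb w, hzw]
  by_cases hz : z = y
  · rw [hz, dist_self] at hd
    rw [hz]
    exact (dist_eq_zero.1 hd.symm).symm
  obtain ⟨z', hz1, hz2⟩ := h.ext y (mem_ball_self h.pos) z hz
  set L := dist z y with hL
  have hL0 : 0 < L := dist_pos.2 hz
  set D := dist y z' with hD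
  have hD0 : 0 < D := lt_of_lt_of_le h.pos hz2
  -- distances from z'
  have hz'z : dist z' z = D + L := by rw [dist_comm, hz1]; ring
  have hz'y : dist z' y = D := by rw [dist_comm]
  have key : ∀ n : ℕ, D + L - 2 ^ n * dist (φ y z ((1 / 2) ^ n)) (φ y w ((1 / 2) ^ n)) ≤
      dist z' w := by
    intro n
    set l : ℝ := (1 / 2) ^ n with hl
    have hlI : l ∈ Icc (0 : ℝ) 1 := half_pow_mem' n
    have hl0 : 0 < l := (half_pow_mem n).1
    have h1 : D + l * L ≤ dist z' (φ y z l) := by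
      have h2 := dist_triangle z' (φ y z l) z
      rw [hb.dist_right y z l hlI, dist_comm y z, hz'z] at h2
      nlinarith
    have h3 := hb.conv_pt z' y w hlI
    rw [hz'y] at h3
    have h4 := dist_triangle z' (φ y w l) (φ y z l)
    rw [dist_comm (φ y w l) (φ y z l)] at h4
    have h5 : l * (D + L) - dist (φ y z l) (φ y w l) ≤ l * dist z' w := by linarith
    have h6 : 2 ^ n * (l * (D + L) - dist (φ y z l) (φ y w l)) ≤ 2 ^ n * (l * dist z' w) :=
      mul_le_mul_of_nonneg_left h5 (by positivity)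
    have h7 : (2 : ℝ) ^ n * l = 1 := two_pow_mul_half n
    have h8 : 2 ^ n * (l * dist z' w) = dist z' w := by rw [← mul_assoc, h7, one_mul]
    have h9 : 2 ^ n * (l * (D + L) - dist (φ y z l) (φ y w l)) =
        D + L - 2 ^ n * dist (φ y z l) (φ y w l) := by
      linear_combination (D + L) * h7
    rw [h8, h9] at h6
    exact h6
  have hlim : Tendsto (fun n : ℕ => D + L -
      2 ^ n * dist (φ y z ((1 / 2) ^ n)) (φ y w ((1 / 2) ^ n))) (UU : Filter ℕ) (𝓝 (D + L - 0)) := by
    refine tendsto_const_nhds.sub ?_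
    have := tendsto_cls (logS hb y z) (logS hb y w)
    rw [hzw, dist_self] at this
    exact this
  rw [sub_zero] at hlim
  have hge : D + L ≤ dist z' w := le_of_tendsto' hlim key
  have hle : dist z' w ≤ D + L := by
    have := dist_triangle z' y w
    rw [hz'y, dist_comm y w, ← hd] at this
    exact this
  have heq : dist z' w = D + L := le_antisymm hle hge
  set t := D / (D + L) with ht
  have hDL : 0 < D + L := by linarith
  have htI : t ∈ Ioc (0 : ℝ) 1 := ⟨div_pos hD0 hDL, (div_le_one hDL).2 (by linarith)⟩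
  have hyz : y = φ z' z t := by
    have h1 := hb.btw (p := z') (y := z) (z := y) (by rw [hz'y, hz'z, dist_comm y z])
      (dist_pos.1 (by rw [hz'z]; exact hDL))
    rwa [hz'y, hz'z] at h1
  have hyw : y = φ z' w t := by
    have h1 := hb.btw (p := z') (y := w) (z := y) (by rw [hz'y, heq, dist_comm y w, ← hd])
      (dist_pos.1 (by rw [heq]; exact hDL))
    rwa [hz'y, heq] at h1
  apply h.inj z' t htI
  change φ z' z t = φ z' w t
  rw [← hyz, ← hyw]

theorem Good.log_surj [CompactSpace Y] {e : ℝ} (h : Good φ y e) {A : TT y}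
    (hA : dist A (cls (oS y)) < e) : ∃ z, cls (logS h.bic y z) = A := by
  have hb := h.bic
  obtain ⟨a, rfl⟩ := cls_surj A
  classical
  set P : ℕ → Y → Prop := fun n b' => φ y b' ((1 / 2) ^ n) = a.1 n with hP
  set b : ℕ → Y := fun n => if hn : ∃ b', P n b' then hn.choose else y with hbdef
  have hbP : ∀ n, (∃ b', P n b') → P n (b n) := by
    intro n hn
    simp only [hbdef, dif_pos hn]
    exact hn.choose_spec
  have e1 : ∀ᶠ n in (UU : Filter ℕ), dist (a.1 n) y < e :=
    UU_le ((Sq.tendsto_y a).eventually (gt_mem_nhds h.pos))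
  have e2 : ∀ᶠ n in (UU : Filter ℕ), 2 ^ n * dist (a.1 n) y < e :=
    (dist_oS a).eventually (gt_mem_nhds hA)
  have e3 : ∀ᶠ n in (UU : Filter ℕ), P n (b n) := by
    filter_upwards [e1, e2] with n hn1 hn2
    apply hbP
    obtain ⟨b', hb', -⟩ := exists_dil hb (y := y) (h.ext (a.1 n) hn1) (half_pow_mem n) (by
      have h1 : 1 / ((1 : ℝ) / 2) ^ n = 2 ^ n := by
        rw [one_div_pow, one_div_one_div]
      rw [h1, dist_comm y, sub_mul, one_mul]
      have := dist_nonneg (x := a.1 n) (y := y)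
      linarith)
    exact ⟨b', hb'⟩
  obtain ⟨z, -, hz⟩ := (isCompact_univ (X := Y)).ultrafilter_le_nhds (UU.map b) (by simp)
  have hz' : Tendsto b (UU : Filter ℕ) (𝓝 z) := hz
  refine ⟨z, ?_⟩
  rw [← dist_eq_zero]
  refine le_antisymm ?_ dist_nonneg
  have hlim : Tendsto (fun n => dist z (b n)) (UU : Filter ℕ) (𝓝 0) := by
    have := tendsto_const_nhds (x := z) |>.dist hz'
    rwa [dist_self] at this
  refine le_of_tendsto_of_tendsto (tendsto_cls _ _) hlim ?_
  filter_upwards [e3] with n hn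
  change 2 ^ n * dist (φ y z ((1 / 2) ^ n)) (a.1 n) ≤ dist z (b n)
  have hn' : φ y (b n) ((1 / 2) ^ n) = a.1 n := hn
  rw [← hn']
  have h1 := hb.contr y z (b n) (half_pow_mem' n)
  have h2 : (2 : ℝ) ^ n * dist (φ y z ((1 / 2) ^ n)) (φ y (b n) ((1 / 2) ^ n)) ≤
      2 ^ n * ((1 / 2) ^ n * dist z (b n)) := mul_le_mul_of_nonneg_left h1 (by positivity)
  rw [← mul_assoc, two_pow_mul_half, one_mul] at h2
  exact h2

end

end Pool.Agent.Helper54_Busemann
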