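import Mathlib
import Pool.Agent.Helper54_Busemann.Tangent

/-!
# Charts at generic points
-/

namespace Pool.Agent.Helper54_Busemann

open Set Metric MeasureTheory Filter Topology

universe u

theorem Good.chart {Y : Type u} [MetricSpace Y] [CompactSpace Y] {φ : Y → Y → ℝ → Y} {y : Y}
    {e : ℝ} (h : Good φ y e) : ∃ (k : ℕ) (U : Set Y), IsOpen U ∧ y ∈ U ∧
      ∃ g : U → EuclideanSpace ℝ (Fin k), IsOpenEmbedding g := by
  have hb := h.bic
  obtain ⟨E, iE, iE', ι, hι⟩ := exists_normedSpace h.mid (segT_seg (y := y) hb)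
  set L : Y → E := fun z => ι (cls (logS hb y z)) with hL
  have hLdist : ∀ z w, dist (L z) (L w) ≤ dist z w := by
    intro z w
    simp only [hL]
    rw [ι.dist_eq]
    exact dist_logS_le hb z w
  have hLc : Continuous L := by
    refine LipschitzWith.continuous (K := 1) (LipschitzWith.of_dist_le_mul fun z w => ?_)
    rw [NNReal.coe_one, one_mul]
    exact hLdist z w
  have hLn : ∀ z, ‖L z‖ = dist z y := by
    intro z
    rw [← dist_zero_right, ← hι]
    simp only [hL]
    rw [ι.dist_eq]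
    exact dist_logS hb z
  have hLi : Function.Injective L := fun z w hzw => h.log_inj (ι.injective hzw)
  have hLs : ∀ v : E, ‖v‖ < e → ∃ z, L z = v := by
    intro v hv
    obtain ⟨z, hz⟩ := h.log_surj (A := ι.symm v) (by
      rw [← ι.dist_eq, ι.apply_symm_apply, hι, dist_zero_right]
      exact hv)
    refine ⟨z, ?_⟩
    simp only [hL]
    rw [hz, ι.apply_symm_apply]
  have hemb : IsEmbedding L := (hLc.isClosedEmbedding hLi).isEmbedding
  have hcomp : IsCompact (closedBall (0 : E) (e / 2)) := by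
    refine (isCompact_range hLc).of_isClosed_subset isClosed_closedBall ?_
    intro v hv
    rw [mem_closedBall, dist_zero_right] at hv
    exact hLs v (by have := h.pos; linarith)
  have hfd : FiniteDimensional ℝ E := .of_isCompact_closedBall ℝ (half_pos h.pos) hcomp
  let Φ : E ≃L[ℝ] EuclideanSpace ℝ (Fin (Module.finrank ℝ E)) :=
    ContinuousLinearEquiv.ofFinrankEq (by simp)
  refine ⟨Module.finrank ℝ E, ball y e, isOpen_ball, mem_ball_self h.pos,
    fun z => Φ (L z), ?_, ?_⟩
  · have h1 : IsEmbedding (L ∘ (Subtype.val : ball y e → Y)) := hemb.comp IsEmbedding.subtypeVal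
    exact Φ.toHomeomorph.isEmbedding.comp h1
  · have h1 : range (fun z : ball y e => Φ (L z)) = Φ '' ball 0 e := by
      ext v
      constructor
      · rintro ⟨z, rfl⟩
        refine ⟨L z, ?_, rfl⟩
        rw [mem_ball, dist_zero_right, hLn]
        exact z.2
      · rintro ⟨w, hw, rfl⟩
        rw [mem_ball, dist_zero_right] at hw
        obtain ⟨z, rfl⟩ := hLs w hw
        rw [hLn] at hw
        exact ⟨⟨z, hw⟩, rfl⟩
    rw [h1]
    exact Φ.toHomeomorph.isOpenMap _ isOpen_ball

/-- Manifold points in the compact model situation: they are dense in a nonempty open set. -/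
theorem exists_chart {Y : Type u} [MetricSpace Y] [CompleteSpace Y] [Nonempty Y]
    [MeasurableSpace Y] [BorelSpace Y] {φ : Y → Y → ℝ → Y} {μ : Measure Y} {c : ℝ → ℝ}
    (hb : Bic φ) (hm : Mcp φ μ c) {D : ℝ} (hD : ∀ x y : Y, dist x y ≤ D) :
    ∃ Ω : Set Y, IsOpen Ω ∧ Ω.Nonempty ∧ ∀ V : Set Y, IsOpen V → V.Nonempty → V ⊆ Ω →
      ∃ y ∈ V, ∃ (k : ℕ) (U : Set Y), IsOpen U ∧ y ∈ U ∧
        ∃ g : U → EuclideanSpace ℝ (Fin k), IsOpenEmbedding g := by
  have hcomp : CompactSpace Y := compactSpace_of_mcp hb hm hD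
  obtain ⟨x, e, he, hext⟩ := exists_ext hb hm hD
  refine ⟨ball x (e / 2), isOpen_ball, ⟨x, mem_ball_self (half_pos he)⟩, ?_⟩
  intro V hV hVn hVs
  obtain ⟨y, hyV, hgen⟩ := exists_gen hb he hext hV hVn hVs
  refine ⟨y, hyV, Good.chart (φ := φ) (e := e / 2)
    ⟨hb, half_pos he, fun p s hs => injective_of_mcp hb hm p hs, ?_, hgen⟩⟩
  intro a ha z hz
  have hax : a ∈ ball x e := by
    have h1 := hVs hyV
    rw [mem_ball] at ha h1 ⊢
    have := dist_triangle a y x
    linarith
  obtain ⟨w, h1, h2⟩ := hext a hax z hz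
  exact ⟨w, h1, by linarith⟩

end Pool.Agent.Helper54_Busemann
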