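import Mathlib

/-!
# Definitions: Busemann spaces, the measure contraction property, manifold points
-/

namespace Pool.Agent.Helper54_Busemann

open Set Metric MeasureTheory

/-- `γ` restricted to `[0,1]` is a constant-speed geodesic from `x` to `y`. -/
def IsGeod {X : Type*} [MetricSpace X] (γ : ℝ → X) (x y : X) : Prop :=
  γ 0 = x ∧ γ 1 = y ∧
    ∀ s ∈ Icc (0 : ℝ) 1, ∀ t ∈ Icc (0 : ℝ) 1, dist (γ s) (γ t) = |s - t| * dist x y

/-- A Busemann space: a complete geodesic metric space in which `t ↦ d(σ(t), τ(t))` is convex on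
`[0,1]` for any two constant-speed geodesics `σ, τ : [0,1] → Y`. -/
structure IsBusemann (Y : Type*) [MetricSpace Y] : Prop where
  complete : CompleteSpace Y
  geodesic : ∀ x y : Y, ∃ γ : ℝ → Y, IsGeod γ x y
  convex : ∀ (σ τ : ℝ → Y) (x y x' y' : Y), IsGeod σ x y → IsGeod τ x' y' →
    ConvexOn ℝ (Icc (0 : ℝ) 1) fun t => dist (σ t) (τ t)

/-- Locally Busemann: every point has a closed ball neighbourhood which is a Busemann space with
the induced metric. (In particular any two points of the ball are joined by a geodesic that stays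
in the ball; no further convexity of the ball in `X` is required.) -/
def LocallyBusemann (X : Type*) [MetricSpace X] : Prop :=
  ∀ x : X, ∃ r : ℝ, 0 < r ∧ IsBusemann (closedBall x r)

/-- The function `s_κ` for `κ ≤ 0`. -/
noncomputable def sFun (κ r : ℝ) : ℝ :=
  if κ = 0 then r else Real.sinh (Real.sqrt (-κ) * r) / Real.sqrt (-κ)

/-- The distortion coefficient `t (s_κ(t d) / s_κ(d))^(N-1)` with `κ = K / (N-1)`. At `d = 0` the
quotient is read as `0 / 0 = 0`, the smallest possible value. -/
noncomputable def coef (K N t d : ℝ) : ℝ :=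
  t * (sFun (K / (N - 1)) (t * d) / sFun (K / (N - 1)) d) ^ (N - 1)

/-- The set `A_t` of all points at parameter `t` on geodesics of `X` from `p` to points of `A`. -/
def contraction {X : Type*} [MetricSpace X] (p : X) (A : Set X) (t : ℝ) : Set X :=
  {z | ∃ x ∈ A, ∃ γ : ℝ → X, IsGeod γ p x ∧ γ t = z}

/-- The measure contraction property MCP(K,N) on a subset `B` of `X`. -/
def McpOn {X : Type*} [MetricSpace X] [MeasurableSpace X] (m : Measure X) (K N : ℝ)
    (B : Set X) : Prop :=
  ∀ p ∈ B, ∀ A ⊆ B, MeasurableSet A → ∀ t ∈ Icc (0 : ℝ) 1,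
    (N = 1 → ENNReal.ofReal t * m A ≤ m (contraction p A t)) ∧
    (1 < N → ∫⁻ x in A, ENNReal.ofReal (coef K N t (dist p x)) ∂m ≤ m (contraction p A t))

/-- Local MCP(K,N): every point has a neighbourhood on which MCP(K,N) holds. -/
def LocalMcp {X : Type*} [MetricSpace X] [MeasurableSpace X] (m : Measure X) (K N : ℝ) : Prop :=
  ∀ x : X, ∃ B ∈ nhds x, McpOn m K N B

/-- A manifold point: a point with an open neighbourhood homeomorphic to an open subset of `ℝ^k`
for some `k ≥ 0`. -/
def IsManifoldPoint {X : Type*} [TopologicalSpace X] (x : X) : Prop :=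
  ∃ (k : ℕ) (U : Set X) (V : Set (EuclideanSpace ℝ (Fin k))),
    IsOpen U ∧ x ∈ U ∧ IsOpen V ∧ Nonempty (U ≃ₜ V)

end Pool.Agent.Helper54_Busemann
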