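import Mathlib
import Pool.Agent.Helper54_Busemann.Defs

/-!
# Lower bounds for the distortion coefficients
-/

namespace Pool.Agent.Helper54_Busemann

open Set Metric MeasureTheory Topology Filter

lemma sinh_le_mul_exp {u : ℝ} : Real.sinh u ≤ u * Real.exp u := by
  rw [Real.sinh_eq]
  have h1 : 1 - 2 * u ≤ Real.exp (-(2 * u)) := by
    have := Real.add_one_le_exp (-(2 * u)); linarith
  have h2 : Real.exp (-u) = Real.exp u * Real.exp (-(2 * u)) := by
    rw [← Real.exp_add]; congr 1; ring
  have h3 := Real.exp_pos u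
  rw [h2]
  nlinarith

lemma ratio_ge_one {t u : ℝ} (ht : 0 ≤ t) (hu : 0 < u) :
    t * Real.exp (-u) ≤ Real.sinh (t * u) / Real.sinh u := by
  have h0 : 0 < Real.sinh u := Real.sinh_pos_iff.2 hu
  rw [le_div_iff₀ h0]
  have h1 : t * u ≤ Real.sinh (t * u) := Real.self_le_sinh_iff.2 (mul_nonneg ht hu.le)
  have h2 := sinh_le_mul_exp (u := u)
  have h3 : Real.exp (-u) * Real.exp u = 1 := by rw [← Real.exp_add]; simp
  have h4 : t * Real.exp (-u) * Real.sinh u ≤ t * Real.exp (-u) * (u * Real.exp u) :=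
    mul_le_mul_of_nonneg_left h2 (mul_nonneg ht (Real.exp_pos _).le)
  have h5 : t * Real.exp (-u) * (u * Real.exp u) = t * u := by
    linear_combination (t * u) * h3
  linarith

lemma ratio_ge_two {t u : ℝ} (ht : t ∈ Icc (0 : ℝ) 1) (hu : 0 < u) :
    1 - (1 - t) * ((1 + u) * Real.exp u) ≤ Real.sinh (t * u) / Real.sinh u := by
  have h0 : 0 < Real.sinh u := Real.sinh_pos_iff.2 hu
  rw [le_div_iff₀ h0]
  set s := 1 - t with hs
  have hs0 : 0 ≤ s := by linarith [ht.2]
  have hs1 : s ≤ 1 := by linarith [ht.1]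
  have h1 : Real.sinh (t * u) = Real.sinh u * Real.cosh (s * u) - Real.cosh u * Real.sinh (s * u) := by
    rw [← Real.sinh_sub]; congr 1; rw [hs]; ring
  have h2 : 1 ≤ Real.cosh (s * u) := Real.one_le_cosh _
  have h3 : Real.sinh (s * u) ≤ s * u * Real.exp u := by
    refine (sinh_le_mul_exp (u := s * u)).trans ?_
    refine mul_le_mul_of_nonneg_left (Real.exp_le_exp.2 ?_) (mul_nonneg hs0 hu.le)
    nlinarith
  -- u cosh u ≤ (1+u) sinh u
  have h4 : u * Real.cosh u ≤ (1 + u) * Real.sinh u := by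
    have h5 : Real.cosh u = Real.sinh u + Real.exp (-u) := by
      rw [← Real.cosh_sub_sinh]; ring
    have h6 : u ≤ Real.sinh u := Real.self_le_sinh_iff.2 hu.le
    have h7 : Real.exp (-u) ≤ 1 := Real.exp_le_one_iff.2 (by linarith)
    rw [h5]
    nlinarith
  have h8 : 0 < Real.cosh u := Real.cosh_pos u
  have h9 : Real.cosh u * Real.sinh (s * u) ≤ s * Real.exp u * ((1 + u) * Real.sinh u) := by
    calc Real.cosh u * Real.sinh (s * u) ≤ Real.cosh u * (s * u * Real.exp u) :=
          mul_le_mul_of_nonneg_left h3 h8.le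
      _ = s * Real.exp u * (u * Real.cosh u) := by ring
      _ ≤ s * Real.exp u * ((1 + u) * Real.sinh u) :=
          mul_le_mul_of_nonneg_left h4 (mul_nonneg hs0 (Real.exp_pos _).le)
  rw [h1]
  nlinarith

/-- The lower bound for the coefficient on a set of diameter at most `D`. -/
noncomputable def cLow (K N D t : ℝ) : ℝ :=
  if 1 < N then
    t * (max (t * Real.exp (-(Real.sqrt (-(K / (N - 1))) * D)))
      (1 - (1 - t) * ((1 + Real.sqrt (-(K / (N - 1))) * D) *
        Real.exp (Real.sqrt (-(K / (N - 1))) * D)))) ^ (N - 1)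
  else t

lemma cLow_pos {K N D t : ℝ} (ht : t ∈ Ioc (0 : ℝ) 1) : 0 < cLow K N D t := by
  unfold cLow
  split_ifs with h
  · refine mul_pos ht.1 (Real.rpow_pos_of_pos ?_ _)
    exact lt_max_of_lt_left (mul_pos ht.1 (Real.exp_pos _))
  · exact ht.1

lemma cLow_lim {K N D : ℝ} :
    ∃ t₀ : ℝ, 0 < t₀ ∧ t₀ < 1 ∧ ∀ t, t ∈ Icc t₀ 1 → 4 / 5 ≤ cLow K N D t := by
  have hlim : ∀ᶠ t in 𝓝 (1 : ℝ), 4 / 5 < cLow K N D t := by
    by_cases h : 1 < N
    · set w := Real.sqrt (-(K / (N - 1))) * D with hw
      have hc : ContinuousAt (fun t : ℝ => t * (max (t * Real.exp (-w))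
          (1 - (1 - t) * ((1 + w) * Real.exp w))) ^ (N - 1)) 1 := by
        refine continuousAt_id.mul (ContinuousAt.rpow_const ?_ (Or.inl ?_))
        · fun_prop
        · simp only [sub_self, zero_mul, sub_zero]
          exact (lt_max_of_lt_right one_pos).ne'
      have hval : (4 / 5 : ℝ) < 1 * (max (1 * Real.exp (-w))
          (1 - (1 - 1) * ((1 + w) * Real.exp w))) ^ (N - 1) := by
        rw [one_mul, sub_self, zero_mul, sub_zero]
        have : 1 ≤ (max (1 * Real.exp (-w)) 1) ^ (N - 1) :=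
          Real.one_le_rpow (le_max_right _ _) (by linarith)
        linarith
      have := hc.eventually (lt_mem_nhds hval)
      filter_upwards [this] with t ht
      simp only [cLow, h, if_true]
      exact ht
    · have : ∀ᶠ t in 𝓝 (1 : ℝ), 4 / 5 < t := lt_mem_nhds (by norm_num)
      filter_upwards [this] with t ht
      simp only [cLow, h, if_false]
      exact ht
  obtain ⟨ε, hε, hball⟩ := Metric.eventually_nhds_iff.1 hlim
  refine ⟨max (1 / 2) (1 - ε / 2), lt_max_of_lt_left (by norm_num),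
    max_lt (by norm_num) (by linarith), ?_⟩
  intro t ht
  refine (hball ?_).le
  rw [Real.dist_eq, abs_lt]
  have := (le_max_right (1 / 2) (1 - ε / 2)).trans ht.1
  constructor <;> linarith [ht.2]

lemma cLow_le_one {K N D t : ℝ} (hD : 0 ≤ D) (ht : t ∈ Ioc (0 : ℝ) 1) : cLow K N D t ≤ 1 := by
  unfold cLow
  split_ifs with h
  · set w := Real.sqrt (-(K / (N - 1))) * D with hw
    have hw0 : 0 ≤ w := mul_nonneg (Real.sqrt_nonneg _) hD
    have h1 : t * Real.exp (-w) ≤ 1 := by
      have h2 : Real.exp (-w) ≤ 1 := Real.exp_le_one_iff.2 (by linarith)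
      have h3 := Real.exp_pos (-w)
      nlinarith [ht.1, ht.2]
    have h2 : 1 - (1 - t) * ((1 + w) * Real.exp w) ≤ 1 := by
      have : 0 ≤ (1 - t) * ((1 + w) * Real.exp w) :=
        mul_nonneg (by linarith [ht.2]) (mul_nonneg (by linarith) (Real.exp_pos _).le)
      linarith
    have h3 : (max (t * Real.exp (-w)) (1 - (1 - t) * ((1 + w) * Real.exp w))) ^ (N - 1) ≤ 1 := by
      refine Real.rpow_le_one ?_ (max_le h1 h2) (by linarith)
      exact le_max_of_le_left (mul_nonneg ht.1.le (Real.exp_pos _).le)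
    have h4 : 0 ≤ (max (t * Real.exp (-w)) (1 - (1 - t) * ((1 + w) * Real.exp w))) ^ (N - 1) := by
      refine Real.rpow_nonneg ?_ _
      exact le_max_of_le_left (mul_nonneg ht.1.le (Real.exp_pos _).le)
    nlinarith [ht.1, ht.2]
  · exact ht.2

lemma cLow_le_coef {K N D t d : ℝ} (hK : K ≤ 0) (hN : 1 < N) (ht : t ∈ Ioc (0 : ℝ) 1)
    (hd : 0 < d) (hdD : d ≤ D) : cLow K N D t ≤ coef K N t d := by
  simp only [cLow, hN, if_true, coef]
  refine mul_le_mul_of_nonneg_left ?_ ht.1.le
  refine Real.rpow_le_rpow ?_ ?_ (by linarith)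
  · exact le_max_of_le_left (mul_nonneg ht.1.le (Real.exp_pos _).le)
  · by_cases h0 : K / (N - 1) = 0
    · simp only [sFun, h0, if_true, neg_zero, Real.sqrt_zero, zero_mul, Real.exp_zero, mul_one,
        add_zero]
      rw [mul_div_assoc, div_self hd.ne', mul_one]
      exact max_le le_rfl (by linarith)
    · have hneg : K / (N - 1) < 0 :=
        lt_of_le_of_ne (div_nonpos_of_nonpos_of_nonneg hK (by linarith)) h0
      set a := Real.sqrt (-(K / (N - 1))) with ha
      have ha0 : 0 < a := Real.sqrt_pos.2 (by linarith)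
      have hu : 0 < a * d := mul_pos ha0 hd
      have huD : a * d ≤ a * D := mul_le_mul_of_nonneg_left hdD ha0.le
      have hr : sFun (K / (N - 1)) (t * d) / sFun (K / (N - 1)) d =
          Real.sinh (t * (a * d)) / Real.sinh (a * d) := by
        simp only [sFun, h0, if_false]
        rw [← ha, div_div_div_cancel_right₀ ha0.ne']
        congr 2
        ring
      rw [hr]
      refine max_le ?_ ?_
      · refine le_trans ?_ (ratio_ge_one ht.1.le hu)
        refine mul_le_mul_of_nonneg_left (Real.exp_le_exp.2 ?_) ht.1.le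
        linarith
      · refine le_trans ?_ (ratio_ge_two ⟨ht.1.le, ht.2⟩ hu)
        have h1 : (1 + a * d) * Real.exp (a * d) ≤ (1 + a * D) * Real.exp (a * D) :=
          mul_le_mul (by linarith) (Real.exp_le_exp.2 huD) (Real.exp_pos _).le (by linarith)
        have h2 : (1 - t) * ((1 + a * d) * Real.exp (a * d)) ≤
            (1 - t) * ((1 + a * D) * Real.exp (a * D)) :=
          mul_le_mul_of_nonneg_left h1 (by linarith [ht.2])
        linarith

end Pool.Agent.Helper54_Busemann
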