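import Mathlib
import Pool.Agent.Helper54_Busemann.Defs
import Pool.Agent.Helper54_Busemann.Chart

/-!
# From Busemann spaces to bicombings
-/

namespace Pool.Agent.Helper54_Busemann

open Set Metric MeasureTheory Topology

section

variable {Z : Type*} [MetricSpace Z]

lemma geod_of_lip {γ : ℝ → Z} {p y : Z} (h0 : γ 0 = p) (h1 : γ 1 = y)
    (h : ∀ s t, 0 ≤ s → s ≤ t → t ≤ 1 → dist (γ s) (γ t) ≤ (t - s) * dist p y) :
    IsGeod γ p y := by
  have key : ∀ s t, 0 ≤ s → s ≤ t → t ≤ 1 → dist (γ s) (γ t) = (t - s) * dist p y := by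
    intro s t hs hst ht
    refine le_antisymm (h s t hs hst ht) ?_
    have h2 := h 0 s le_rfl hs (hst.trans ht)
    have h3 := h t 1 (hs.trans hst) ht le_rfl
    rw [h0] at h2
    rw [h1] at h3
    have h4 := dist_triangle4 p (γ s) (γ t) y
    linarith
  refine ⟨h0, h1, fun s hs t ht => ?_⟩
  rcases le_total s t with hst | hst
  · rw [key s t hs.1 hst ht.2, abs_of_nonpos (by linarith)]; ring
  · rw [dist_comm, key t s ht.1 hst hs.2, abs_of_nonneg (by linarith)]

lemma geod_const (x : Z) : IsGeod (fun _ => x) x x :=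
  ⟨rfl, rfl, fun s _ t _ => by simp⟩

/-- Concatenation of geodesics. -/
lemma geod_concat {γ₁ γ₂ : ℝ → Z} {p z y : Z} (h1 : IsGeod γ₁ p z) (h2 : IsGeod γ₂ z y) {t : ℝ}
    (ht : t ∈ Ioo (0 : ℝ) 1) (hz1 : dist p z = t * dist p y)
    (hz2 : dist z y = (1 - t) * dist p y) :
    IsGeod (fun s => if s ≤ t then γ₁ (s / t) else γ₂ ((s - t) / (1 - t))) p y := by
  have ht0 := ht.1
  have ht1 : 0 < 1 - t := by linarith [ht.2]
  have m1 : ∀ s, 0 ≤ s → s ≤ t → s / t ∈ Icc (0 : ℝ) 1 := fun s a b =>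
    ⟨div_nonneg a ht0.le, (div_le_one ht0).2 b⟩
  have m2 : ∀ s, t ≤ s → s ≤ 1 → (s - t) / (1 - t) ∈ Icc (0 : ℝ) 1 := fun s a b =>
    ⟨div_nonneg (by linarith) ht1.le, (div_le_one ht1).2 (by linarith)⟩
  refine geod_of_lip ?_ ?_ ?_
  · simp only [ht0.le, if_true, zero_div]
    exact h1.1
  · have : ¬ (1 : ℝ) ≤ t := not_le.2 ht.2
    simp only [this, if_false, div_self ht1.ne']
    exact h2.2.1
  · intro s u hs hsu hu
    by_cases hut : u ≤ t
    · have hst : s ≤ t := hsu.trans hut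
      simp only [hut, hst, if_true]
      rw [h1.2.2 _ (m1 s hs hst) _ (m1 u (hs.trans hsu) hut), hz1, ← sub_div, abs_div,
        abs_of_nonpos (by linarith), abs_of_pos ht0]
      apply le_of_eq
      field_simp
      ring
    · push Not at hut
      have hut' : ¬ u ≤ t := not_le.2 hut
      by_cases hst : s ≤ t
      · simp only [hut', hst, if_true, if_false]
        have a1 := h1.2.2 _ (m1 s hs hst) 1 ⟨zero_le_one, le_rfl⟩
        have a2 := h2.2.2 0 ⟨le_rfl, zero_le_one⟩ _ (m2 u hut.le hu)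
        rw [h1.2.1, hz1, abs_of_nonpos (by linarith [(m1 s hs hst).2])] at a1
        rw [h2.1, hz2, abs_of_nonpos (by linarith [(m2 u hut.le hu).1])] at a2
        have a3 := dist_triangle (γ₁ (s / t)) z (γ₂ ((u - t) / (1 - t)))
        rw [a1, a2] at a3
        refine a3.trans (le_of_eq ?_)
        field_simp
        ring
      · push Not at hst
        have hst' : ¬ s ≤ t := not_le.2 hst
        simp only [hut', hst', if_false]
        rw [h2.2.2 _ (m2 s hst.le (hsu.trans hu)) _ (m2 u hut.le hu), hz2, ← sub_div, abs_div,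
          abs_of_nonpos (by linarith), abs_of_pos ht1]
        apply le_of_eq
        field_simp
        ring

lemma conv_ineq {f : ℝ → ℝ} (h : ConvexOn ℝ (Icc (0 : ℝ) 1) f) {t : ℝ} (ht : t ∈ Icc (0 : ℝ) 1) :
    f t ≤ (1 - t) * f 0 + t * f 1 := by
  have h0 : (0 : ℝ) ∈ Icc (0 : ℝ) 1 := ⟨le_rfl, zero_le_one⟩
  have h1 : (1 : ℝ) ∈ Icc (0 : ℝ) 1 := ⟨zero_le_one, le_rfl⟩
  have h2 : 0 ≤ 1 - t := by linarith [ht.2]
  have h3 : 1 - t + t = 1 := by ring
  have := h.2 h0 h1 h2 ht.1 h3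
  simpa using this

/-- A Busemann space has a bicombing with the properties `Bic`. -/
theorem exists_bic (h : IsBusemann Z) : ∃ φ : Z → Z → ℝ → Z, Bic φ := by
  choose γ hγ using h.geodesic
  have hcl : ∀ u : ℝ, max 0 (min 1 u) ∈ Icc (0 : ℝ) 1 := fun u =>
    ⟨le_max_left _ _, max_le zero_le_one (min_le_left _ _)⟩
  have hid : ∀ t : ℝ, t ∈ Icc (0 : ℝ) 1 → max 0 (min 1 t) = t := fun t ht => by
    rw [min_eq_right ht.2, max_eq_right ht.1]
  refine ⟨fun p y t => γ p y (max 0 (min 1 t)), ?_, ?_, ?_, ?_, ?_⟩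
  · intro p y t ht
    simp only [hid t ht]
    have := (hγ p y).2.2 0 ⟨le_rfl, zero_le_one⟩ t ht
    rw [(hγ p y).1, zero_sub, abs_neg, abs_of_nonneg ht.1] at this
    exact this
  · intro p y t ht
    simp only [hid t ht]
    have := (hγ p y).2.2 t ht 1 ⟨zero_le_one, le_rfl⟩
    rw [(hγ p y).2.1, abs_of_nonpos (by linarith [ht.2])] at this
    rw [this]; ring
  · intro p y z t ht h1 h2
    simp only [hid t ht]
    rcases eq_or_lt_of_le ht.1 with h0 | h0
    · rw [← h0, (hγ p y).1]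
      rw [← h0, zero_mul] at h1
      exact (dist_eq_zero.1 h1).symm
    rcases eq_or_lt_of_le ht.2 with h3 | h3
    · rw [h3, (hγ p y).2.1]
      rw [h3, sub_self, zero_mul] at h2
      exact dist_eq_zero.1 h2
    have hc := geod_concat (hγ p z) (hγ z y) ⟨h0, h3⟩ h1 h2
    have hconv := h.convex _ _ _ _ _ _ hc (hγ p y)
    have h4 := conv_ineq hconv ht
    simp only [le_refl, if_true, h0.le, div_self h0.ne', zero_div, not_le.2 h3, if_false,
      div_self (by linarith : (1 - t) ≠ 0)] at h4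
    rw [(hγ p z).1, (hγ p y).1, (hγ z y).2.1, (hγ p y).2.1, (hγ p z).2.1, dist_self, dist_self,
      mul_zero, mul_zero, add_zero] at h4
    exact dist_le_zero.1 h4
  · intro p y p' y' t ht
    simp only [hid t ht]
    have h4 := conv_ineq (h.convex _ _ _ _ _ _ (hγ p y) (hγ p' y')) ht
    rw [(hγ p y).1, (hγ p y).2.1, (hγ p' y').1, (hγ p' y').2.1] at h4
    exact h4
  · intro p y t
    simp only [hid _ (hcl t)]

end

/-- Restriction of the bicombing to a smaller ball. -/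
theorem exists_bic_ball {X : Type*} [MetricSpace X] {x₀ : X} {R r : ℝ} (hr0 : 0 < r)
    (hrR : 3 * r ≤ R) (hB : IsBusemann (closedBall x₀ R)) :
    ∃ φ : closedBall x₀ r → closedBall x₀ r → ℝ → closedBall x₀ r, Bic φ ∧
      ∀ (p x : closedBall x₀ r) (z : X) (t : ℝ), t ∈ Icc (0 : ℝ) 1 →
        dist (p : X) z = t * dist (p : X) x → dist z (x : X) = (1 - t) * dist (p : X) x →
        z = φ p x t := by
  obtain ⟨ψ, hψ⟩ := exists_bic hB
  have hle : r ≤ R := by linarith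
  have h0 : x₀ ∈ closedBall x₀ R := mem_closedBall_self (by linarith)
  have hincl : ∀ p : closedBall x₀ r, (p : X) ∈ closedBall x₀ R := fun p =>
    closedBall_subset_closedBall hle p.2
  have hcl : ∀ u : ℝ, max 0 (min 1 u) ∈ Icc (0 : ℝ) 1 := fun u =>
    ⟨le_max_left _ _, max_le zero_le_one (min_le_left _ _)⟩
  have hmem : ∀ (p y : closedBall x₀ r) (t : ℝ),
      ((ψ ⟨p, hincl p⟩ ⟨y, hincl y⟩ t : closedBall x₀ R) : X) ∈ closedBall x₀ r := by
    intro p y t
    rw [hψ.clamp]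
    set u := max 0 (min 1 t) with hu
    have huI : u ∈ Icc (0 : ℝ) 1 := hcl t
    have h1 := hψ.conv_pt ⟨x₀, h0⟩ ⟨p, hincl p⟩ ⟨y, hincl y⟩ huI
    rw [Subtype.dist_eq, Subtype.dist_eq, Subtype.dist_eq] at h1
    rw [mem_closedBall, dist_comm]
    refine h1.trans ?_
    have h2 : dist x₀ (p : X) ≤ r := by rw [dist_comm]; exact p.2
    have h3 : dist x₀ (y : X) ≤ r := by rw [dist_comm]; exact y.2
    simp only
    nlinarith [huI.1, huI.2]
  refine ⟨fun p y t => ⟨ψ ⟨p, hincl p⟩ ⟨y, hincl y⟩ t, hmem p y t⟩, ⟨?_, ?_, ?_, ?_, ?_⟩, ?_⟩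
  · intro p y t ht
    exact hψ.dist_left ⟨p, hincl p⟩ ⟨y, hincl y⟩ t ht
  · intro p y t ht
    exact hψ.dist_right ⟨p, hincl p⟩ ⟨y, hincl y⟩ t ht
  · intro p y z t ht h1 h2
    have := hψ.uniq ⟨p, hincl p⟩ ⟨y, hincl y⟩ ⟨z, hincl z⟩ t ht h1 h2
    have h3 : (z : X) = ((ψ ⟨p, hincl p⟩ ⟨y, hincl y⟩ t : closedBall x₀ R) : X) :=
      congrArg Subtype.val this
    exact Subtype.ext h3
  · intro p y p' y' t ht
    exact hψ.conv ⟨p, hincl p⟩ ⟨y, hincl y⟩ ⟨p', hincl p'⟩ ⟨y', hincl y'⟩ t ht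
  · intro p y t
    have h3 : ((ψ ⟨p, hincl p⟩ ⟨y, hincl y⟩ t : closedBall x₀ R) : X) =
      ((ψ ⟨p, hincl p⟩ ⟨y, hincl y⟩ (max 0 (min 1 t)) : closedBall x₀ R) : X) :=
      congrArg Subtype.val (hψ.clamp ⟨p, hincl p⟩ ⟨y, hincl y⟩ t)
    exact Subtype.ext h3
  · intro p x z t ht h1 h2
    have hz : z ∈ closedBall x₀ R := by
      rw [mem_closedBall]
      have h3 := dist_triangle z p x₀
      have h4 : dist (p : X) x₀ ≤ r := p.2
      have h5 : dist (x : X) x₀ ≤ r := x.2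
      have h6 := dist_triangle_right (p : X) x x₀
      rw [dist_comm z p, h1] at h3
      have h7 : t * dist (p : X) x ≤ dist (p : X) x := by
        have := dist_nonneg (x := (p : X)) (y := x)
        nlinarith [ht.2]
      linarith
    have := hψ.uniq ⟨p, hincl p⟩ ⟨x, hincl x⟩ ⟨z, hz⟩ t ht h1 h2
    exact congrArg Subtype.val this

end Pool.Agent.Helper54_Busemann
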