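import Mathlib
import Pool.Agent.Helper54_Busemann.Local
import Pool.Agent.Helper54_Busemann.Coef

/-!
# Manifold points in locally Busemann spaces with local MCP
-/

namespace Pool.Agent.Helper54_Busemann

open Set Metric MeasureTheory Topology

universe u

section

variable {X : Type u} [MetricSpace X] [MeasurableSpace X] [BorelSpace X]

omit [MeasurableSpace X] [BorelSpace X] in
/-- Points of the closed ball can be approximated by points of the open ball. -/
lemma approx_inner {x₀ : X} {r : ℝ} (hr : 0 < r)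
    {φ : closedBall x₀ r → closedBall x₀ r → ℝ → closedBall x₀ r} (hφ : Bic φ)
    (y : closedBall x₀ r) {ρ : ℝ} (hρ : 0 < ρ) :
    ∃ y' : closedBall x₀ r, dist y' y < ρ ∧ dist (y' : X) x₀ < r := by
  set c : closedBall x₀ r := ⟨x₀, mem_closedBall_self hr.le⟩ with hc
  have hy : dist c y ≤ r := by
    rw [Subtype.dist_eq, dist_comm]; exact y.2
  set s := min (1 / 2) (ρ / (2 * r)) with hs
  have hs0 : 0 < s := lt_min (by norm_num) (by positivity)
  have hs1 : s ≤ 1 / 2 := min_le_left _ _
  have hs2 : s * r ≤ ρ / 2 := by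
    have : s ≤ ρ / (2 * r) := min_le_right _ _
    calc s * r ≤ ρ / (2 * r) * r := mul_le_mul_of_nonneg_right this hr.le
      _ = ρ / 2 := by field_simp
  have hI : 1 - s ∈ Icc (0 : ℝ) 1 := ⟨by linarith, by linarith⟩
  refine ⟨φ c y (1 - s), ?_, ?_⟩
  · rw [hφ.dist_right _ _ _ hI]
    have : (1 - (1 - s)) * dist c y ≤ s * r := by
      rw [sub_sub_cancel]
      exact mul_le_mul_of_nonneg_left hy hs0.le
    linarith
  · have h1 := hφ.dist_left c y _ hI
    rw [Subtype.dist_eq] at h1
    rw [dist_comm]
    have h2 : dist (c : X) (φ c y (1 - s)) = (1 - s) * dist c y := h1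
    change dist (c : X) (φ c y (1 - s)) < r
    rw [h2]
    have h3 : (1 - s) * dist c y ≤ (1 - s) * r := mul_le_mul_of_nonneg_left hy hI.1
    nlinarith

/-- The measure contraction property of the small ball. -/
theorem mcp_ball {m : Measure X} (hfin : ∀ s : Set X, Bornology.IsBounded s → m s < ⊤)
    (hpos : ∀ U : Set X, IsOpen U → U.Nonempty → 0 < m U) {K N : ℝ} (hK : K ≤ 0) (hN : 1 ≤ N)
    {B : Set X} (hB : McpOn m K N B) {x₀ : X} {r : ℝ} (hr : 0 < r) (hrB : closedBall x₀ r ⊆ B)
    {φ : closedBall x₀ r → closedBall x₀ r → ℝ → closedBall x₀ r} (hφ : Bic φ)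
    (huniq : ∀ (p x : closedBall x₀ r) (z : X) (t : ℝ), t ∈ Icc (0 : ℝ) 1 →
        dist (p : X) z = t * dist (p : X) x → dist z (x : X) = (1 - t) * dist (p : X) x →
        z = φ p x t) :
    Mcp φ (m.comap (Subtype.val : closedBall x₀ r → X)) (cLow K N (2 * r)) := by
  set μ := m.comap (Subtype.val : closedBall x₀ r → X) with hμ
  have hms : MeasurableSet (closedBall x₀ r) := isClosed_closedBall.measurableSet
  have hμa : ∀ A : Set (closedBall x₀ r), μ A = m (Subtype.val '' A) := fun A =>
    comap_subtype_coe_apply hms m A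
  have hballfin : m (closedBall x₀ r) < ⊤ := hfin _ isBounded_closedBall
  have hμfin : ∀ A : Set (closedBall x₀ r), μ A < ⊤ := by
    intro A
    rw [hμa]
    refine lt_of_le_of_lt (measure_mono ?_) hballfin
    rintro _ ⟨y, -, rfl⟩
    exact y.2
  refine ⟨hμfin _, ?_, ?_, fun t ht => cLow_pos ht, cLow_lim⟩
  · intro y ρ hρ
    obtain ⟨y', h1, h2⟩ := approx_inner hr hφ y (half_pos hρ)
    have hδ : 0 < min (ρ / 2) (r - dist (y' : X) x₀) := lt_min (half_pos hρ) (by linarith)
    have hpos' : 0 < m (ball (y' : X) (min (ρ / 2) (r - dist (y' : X) x₀))) :=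
      hpos _ isOpen_ball ⟨_, mem_ball_self hδ⟩
    have hsub : ball (y' : X) (min (ρ / 2) (r - dist (y' : X) x₀)) ⊆
        Subtype.val '' (ball y ρ) := by
      intro z hz
      rw [mem_ball] at hz
      have h3 : dist z (y' : X) < ρ / 2 := hz.trans_le (min_le_left _ _)
      have h4 : dist z (y' : X) < r - dist (y' : X) x₀ := hz.trans_le (min_le_right _ _)
      have h5 : z ∈ closedBall x₀ r := by
        rw [mem_closedBall]
        have := dist_triangle z y' x₀
        linarith
      refine ⟨⟨z, h5⟩, ?_, rfl⟩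
      rw [mem_ball]
      have h6 := dist_triangle (⟨z, h5⟩ : closedBall x₀ r) y' y
      have h7 : dist (⟨z, h5⟩ : closedBall x₀ r) y' = dist z (y' : X) := rfl
      linarith
    have h8 : 0 < μ (ball y ρ) := by
      rw [hμa]
      exact lt_of_lt_of_le hpos' (measure_mono hsub)
    exact ENNReal.toReal_pos h8.ne' (hμfin _).ne
  · intro p t ht A hA
    have htc : t ∈ Icc (0 : ℝ) 1 := ⟨ht.1.le, ht.2⟩
    -- contraction inequality for sets not containing `p`
    have hcontr : ∀ A : Set (closedBall x₀ r), MeasurableSet A →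
        contraction (p : X) (Subtype.val '' A) t ⊆ Subtype.val '' ((fun y => φ p y t) '' A) := by
      rintro A - z ⟨_, ⟨x, hx, rfl⟩, γ, hγ, hz⟩
      have e1 := hγ.2.2 0 ⟨le_rfl, zero_le_one⟩ t htc
      have e2 := hγ.2.2 t htc 1 ⟨zero_le_one, le_rfl⟩
      rw [hγ.1, hz, zero_sub, abs_neg, abs_of_nonneg ht.1.le] at e1
      rw [hγ.2.1, hz, abs_of_nonpos (by linarith [ht.2])] at e2
      have := huniq p x z t htc e1 (by rw [e2]; ring)
      rw [this]
      exact ⟨_, ⟨x, hx, rfl⟩, rfl⟩
    have key : ∀ A : Set (closedBall x₀ r), MeasurableSet A → p ∉ A →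
        ENNReal.ofReal (cLow K N (2 * r) t) * μ A ≤ μ ((fun y => φ p y t) '' A) := by
      intro A hA hpA
      have hAX : MeasurableSet (Subtype.val '' A : Set X) := hms.subtype_image hA
      have hAB : (Subtype.val '' A : Set X) ⊆ B := by
        rintro _ ⟨y, -, rfl⟩
        exact hrB y.2
      have hmain := hB p (hrB p.2) _ hAB hAX t htc
      rw [hμa, hμa]
      refine le_trans ?_ (measure_mono (hcontr A hA))
      rcases eq_or_lt_of_le hN with h1 | h1
      · refine le_trans (le_of_eq ?_) (hmain.1 h1.symm)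
        have : ¬ (1 : ℝ) < N := by rw [← h1]; exact lt_irrefl _
        simp only [cLow, this, if_false]
      · refine le_trans ?_ (hmain.2 h1)
        rw [← setLIntegral_const]
        refine setLIntegral_mono' hAX ?_
        rintro _ ⟨y, hy, rfl⟩
        refine ENNReal.ofReal_le_ofReal (cLow_le_coef hK h1 ht ?_ ?_)
        · refine dist_pos.2 fun h => hpA ?_
          have : p = y := Subtype.ext h
          rw [this]; exact hy
        · have h2 := dist_triangle_right (p : X) (y : X) x₀
          have h3 : dist (p : X) x₀ ≤ r := p.2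
          have h4 : dist (y : X) x₀ ≤ r := y.2
          linarith
    have key2 : ENNReal.ofReal (cLow K N (2 * r) t) * μ A ≤ μ ((fun y => φ p y t) '' A) := by
      by_cases hpA : p ∈ A
      · have hsing : MeasurableSet ({p} : Set (closedBall x₀ r)) := measurableSet_singleton p
        have hA' : MeasurableSet (A \ {p}) := hA.diff hsing
        have h1 := key (A \ {p}) hA' (fun h => h.2 rfl)
        have h2 : μ A = μ (A \ {p}) + μ {p} := by
          rw [add_comm, ← measure_union disjoint_sdiff_right hA']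
          congr 1
          rw [union_sdiff_self]
          exact (union_eq_self_of_subset_left (singleton_subset_iff.2 hpA)).symm
        have h3 : μ ((fun y => φ p y t) '' (A \ {p})) + μ {p} ≤ μ ((fun y => φ p y t) '' A) := by
          rw [← measure_union ?_ hsing]
          · refine measure_mono (union_subset (image_mono sdiff_subset) ?_)
            rintro z hz
            rw [mem_singleton_iff] at hz
            exact ⟨p, hpA, by rw [hz]; exact hφ.self p htc⟩
          · rw [disjoint_singleton_right]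
            rintro ⟨y, hy, hpy⟩
            apply hy.2
            rw [mem_singleton_iff]
            have h4 := hφ.dist_left p y t htc
            have h5 : φ p y t = p := hpy
            rw [h5, dist_self] at h4
            have h6 : dist p y = 0 := by
              rcases mul_eq_zero.1 h4.symm with h | h
              · exact absurd h ht.1.ne'
              · exact h
            exact (dist_eq_zero.1 h6).symm
        rw [h2, mul_add]
        refine le_trans (add_le_add h1 ?_) h3
        calc ENNReal.ofReal (cLow K N (2 * r) t) * μ {p} ≤ 1 * μ {p} := by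
              gcongr
              rw [ENNReal.ofReal_le_one]
              exact cLow_le_one (by linarith) ht
          _ = μ {p} := one_mul _
      · exact key A hA hpA
    have h3 := ENNReal.toReal_mono (hμfin _).ne key2
    rw [ENNReal.toReal_mul, ENNReal.toReal_ofReal (cLow_pos ht).le] at h3
    exact h3

/-- Transfer of a chart from the closed ball to the space. -/
lemma manifoldPoint_of_chart {x₀ : X} {r : ℝ} {y : closedBall x₀ r} (hy : dist (y : X) x₀ < r)
    {k : ℕ} {U : Set (closedBall x₀ r)} (hU : IsOpen U) (hyU : y ∈ U)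
    {g : U → EuclideanSpace ℝ (Fin k)} (hg : IsOpenEmbedding g) : IsManifoldPoint (y : X) := by
  obtain ⟨O, hO, hOU⟩ := isOpen_induced_iff.1 hU
  have hmem : ∀ z : X, ∀ hz : z ∈ O ∩ ball x₀ r,
      (⟨z, ball_subset_closedBall hz.2⟩ : closedBall x₀ r) ∈ U := by
    intro z hz
    rw [← hOU]
    exact hz.1
  set j : (O ∩ ball x₀ r : Set X) → U :=
    fun z => ⟨⟨z.1, ball_subset_closedBall z.2.2⟩, hmem z.1 z.2⟩ with hj
  have hjc : Continuous j := by
    refine Continuous.subtype_mk (Continuous.subtype_mk continuous_subtype_val _) _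
  have hje : IsEmbedding j := by
    have h1 : IsEmbedding ((Subtype.val : closedBall x₀ r → X) ∘ (Subtype.val : U → _) ∘ j) :=
      IsEmbedding.subtypeVal
    exact IsEmbedding.of_comp hjc (continuous_subtype_val.comp continuous_subtype_val) h1
  have hjr : range j = (fun u : U => ((u : closedBall x₀ r) : X)) ⁻¹' (ball x₀ r) := by
    ext u
    constructor
    · rintro ⟨z, rfl⟩
      exact z.2.2
    · intro hu
      have hu' : ((u : closedBall x₀ r) : X) ∈ O := hOU.ge u.2
      exact ⟨⟨_, hu', hu⟩, rfl⟩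
  have hjo : IsOpenEmbedding j := ⟨hje, by
    rw [hjr]
    exact isOpen_ball.preimage (continuous_subtype_val.comp continuous_subtype_val)⟩
  have hgj : IsOpenEmbedding (g ∘ j) := hg.comp hjo
  refine ⟨k, O ∩ ball x₀ r, range (g ∘ j), hO.inter isOpen_ball, ⟨?_, hy⟩, hgj.isOpen_range,
    ⟨hgj.isEmbedding.toHomeomorph⟩⟩
  have := hyU
  rw [← hOU] at this
  exact this

/-- **Main theorem.** -/
theorem manifold_points_dense {m : Measure X}
    (hfin : ∀ s : Set X, Bornology.IsBounded s → m s < ⊤)
    (hpos : ∀ U : Set X, IsOpen U → U.Nonempty → 0 < m U) {K N : ℝ} (hK : K ≤ 0) (hN : 1 ≤ N)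
    (hX : LocallyBusemann X) (hM : LocalMcp m K N) :
    Dense {x : X | IsManifoldPoint x} := by
  rw [Metric.dense_iff]
  intro x₀ ε hε
  obtain ⟨R, hR, hBus⟩ := hX x₀
  obtain ⟨B, hBn, hB⟩ := hM x₀
  obtain ⟨δ, hδ, hδB⟩ := Metric.mem_nhds_iff.1 hBn
  set r := min (R / 3) (min (δ / 2) ε) with hrdef
  have hr : 0 < r := lt_min (by linarith) (lt_min (by linarith) hε)
  have hr1 : 3 * r ≤ R := by
    have : r ≤ R / 3 := min_le_left _ _
    linarith
  have hr2 : r ≤ δ / 2 := (min_le_right _ _).trans (min_le_left _ _)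
  have hr3 : r ≤ ε := (min_le_right _ _).trans (min_le_right _ _)
  have hrB : closedBall x₀ r ⊆ B := (closedBall_subset_ball (by linarith)).trans hδB
  obtain ⟨φ, hφ, huniq⟩ := exists_bic_ball hr hr1 hBus
  have hmcp := mcp_ball hfin hpos hK hN hB hr hrB hφ huniq
  have hcompl : CompleteSpace (closedBall x₀ r) := by
    have h1 : IsComplete (closedBall x₀ R) := completeSpace_coe_iff_isComplete.1 hBus.complete
    rw [completeSpace_coe_iff_isComplete]
    intro f hf hfs
    have hsub : closedBall x₀ r ⊆ closedBall x₀ R := closedBall_subset_closedBall (by linarith)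
    obtain ⟨x, -, hx⟩ := h1 f hf (hfs.trans (Filter.principal_mono.2 hsub))
    have hcl : ClusterPt x (Filter.principal (closedBall x₀ r)) := hf.1.mono (le_inf hx hfs)
    exact ⟨x, isClosed_iff_clusterPt.1 isClosed_closedBall x hcl, hx⟩
  have hne : Nonempty (closedBall x₀ r) := ⟨⟨x₀, mem_closedBall_self hr.le⟩⟩
  have hD : ∀ x y : closedBall x₀ r, dist x y ≤ 2 * r := by
    intro x y
    rw [Subtype.dist_eq]
    have h2 := dist_triangle_right (x : X) (y : X) x₀
    have h3 : dist (x : X) x₀ ≤ r := x.2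
    have h4 : dist (y : X) x₀ ≤ r := y.2
    linarith
  obtain ⟨Ω, hΩo, ⟨w, hw⟩, hΩ⟩ := exists_chart hφ hmcp hD
  obtain ⟨ρ, hρ, hρΩ⟩ := Metric.isOpen_iff.1 hΩo w hw
  obtain ⟨w', hw1, hw2⟩ := approx_inner hr hφ w hρ
  have hVo : IsOpen (Ω ∩ (Subtype.val : closedBall x₀ r → X) ⁻¹' ball x₀ r) :=
    hΩo.inter (isOpen_ball.preimage continuous_subtype_val)
  obtain ⟨y, hyV, k, U, hU, hyU, g, hg⟩ := hΩ _ hVo ⟨w', hρΩ hw1, hw2⟩ inter_subset_left
  refine ⟨y, ball_subset_ball hr3 hyV.2, ?_⟩
  exact manifoldPoint_of_chart hyV.2 hU hyU hg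

end

end Pool.Agent.Helper54_Busemann
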